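import Pool.Agent.Helper17.G3.Near

/-!
# G3: the integrable majorant
-/

set_option autoImplicit false
set_option linter.unusedVariables false

namespace Pool.Agent.Helper17.G3

open MeasureTheory Set Metric
open scoped Real

theorem int_Bt {a : ℝ} (h0 : 0 < a) (h2 : a < 2) (p : ℂ) :
    IntegrableOn (fun y : ℂ => ‖y - p‖ ^ (-a)) Bt :=
  Helper39.G2.integrableOn_weight h0 h2 p vol_Bt

theorem le_Bt {a : ℝ} (h0 : 0 < a) (h2 : a < 2) (p : ℂ) :
    ∫ y in Bt, ‖y - p‖ ^ (-a) ≤ 2 * π / (2 - a) * 10 ^ (2 - a) := by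
  have h1 := Helper39.G2.weight_le h0 h2 p Bt (ρ := 10) (by norm_num) (by
    rw [Bt, Complex.volume_closedBall, mul_comm π, ENNReal.ofReal_mul (by positivity),
      ← ENNReal.ofReal_pow (by positivity), ← NNReal.coe_real_pi, ENNReal.ofReal_coe_nnreal])
  rw [← Helper39.G2.ofReal_integral_weight h0 h2 p vol_Bt] at h1
  have h3 : 0 < 2 - a := by linarith
  rwa [ENNReal.ofReal_le_ofReal_iff (by positivity)] at h1

theorem far_qq {d s : ℝ} (hd : 0 < d) (hd1 : d ≤ 1) (hs : 0 < s) (hs1 : s ≤ 1 / 3) {y : ℂ}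
    (hy : 10 < ‖y‖) : |qq d s y| ≤ 1 / 8 * ‖y‖ ^ (-d) := by
  obtain ⟨c, hc0, hc1, hq⟩ := qq_mvt hd hs (w := y) (by linarith)
  have hz2 : 29 / 30 * ‖y‖ ≤ ‖y - c‖ := by
    have h2 := norm_sub_norm_le y (c : ℂ)
    rw [Complex.norm_real, Real.norm_eq_abs, abs_of_nonneg hc0.le] at h2
    linarith
  have hy0 : 0 < ‖y‖ := by linarith
  have hz0 : 0 < ‖y - c‖ := by linarith
  rw [hq, abs_mul, abs_of_pos (Real.rpow_pos_of_pos hz0 _)]
  have h1 : |hk (y - c)| ≤ 30 / 290 := by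
    refine (abs_hk_le _).trans ?_
    rw [Real.rpow_neg_one]
    have h3 : (290 / 30 : ℝ) ≤ ‖y - c‖ := by linarith
    calc ‖y - c‖⁻¹ ≤ (290 / 30 : ℝ)⁻¹ := inv_anti₀ (by norm_num) h3
      _ = 30 / 290 := by norm_num
  have h2 : ‖y - c‖ ^ (-d) ≤ 30 / 29 * ‖y‖ ^ (-d) := by
    calc ‖y - c‖ ^ (-d) ≤ (29 / 30 * ‖y‖) ^ (-d) :=
          Real.rpow_le_rpow_of_nonpos (by positivity) hz2 (by linarith)
      _ = (29 / 30 : ℝ) ^ (-d) * ‖y‖ ^ (-d) := Real.mul_rpow (by norm_num) hy0.le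
      _ ≤ 30 / 29 * ‖y‖ ^ (-d) := by
          refine mul_le_mul_of_nonneg_right ?_ (Real.rpow_nonneg hy0.le _)
          have h4 : (29 / 30 : ℝ) ^ (-d) ≤ (29 / 30 : ℝ) ^ (-1 : ℝ) :=
            Real.rpow_le_rpow_of_exponent_ge (by norm_num) (by norm_num) (by linarith)
          rw [Real.rpow_neg_one] at h4
          norm_num at h4 ⊢
          linarith
  have h5 : 0 < ‖y‖ ^ (-d) := Real.rpow_pos_of_pos hy0 _
  calc |hk (y - c)| * ‖y - c‖ ^ (-d) ≤ 30 / 290 * (30 / 29 * ‖y‖ ^ (-d)) :=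
        mul_le_mul h1 h2 (by positivity) (by norm_num)
    _ ≤ 1 / 8 * ‖y‖ ^ (-d) := by nlinarith

/-- the error function -/
noncomputable def ee (d s : ℝ) (y : ℂ) : ℝ :=
  (240 * d + 20 * s ^ (1 / 4 : ℝ)) * (‖y - 0‖ ^ (-(3 / 2) : ℝ) + ‖y - s‖ ^ (-(3 / 2) : ℝ)) +
    d * (‖y - 0‖ ^ (-1 : ℝ) + (1 + 50 * ‖y - 0‖ ^ (-(1 / 2) : ℝ)))

theorem ee_nonneg {d s : ℝ} (hd : 0 < d) (hs : 0 < s) (y : ℂ) : 0 ≤ ee d s y := by
  unfold ee
  positivity

theorem int_one : IntegrableOn (fun _ : ℂ => (1 : ℝ)) Bt := integrableOn_const vol_Bt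

theorem int_ee {d s : ℝ} : IntegrableOn (ee d s) Bt := by
  have h1 := int_Bt (a := 3 / 2) (by norm_num) (by norm_num) 0
  have h2 := int_Bt (a := 3 / 2) (by norm_num) (by norm_num) (s : ℂ)
  have h3 := int_Bt (a := 1) (by norm_num) (by norm_num) 0
  have h4 := int_Bt (a := 1 / 2) (by norm_num) (by norm_num) 0
  exact ((h1.add h2).const_mul _).add ((h3.add (int_one.add (h4.const_mul 50))).const_mul _)

theorem ee_le {d s : ℝ} (hd : 0 < d) (hs : 0 < s) :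
    ∫ y in Bt, ee d s y ≤ 30000 * (d + s ^ (1 / 4 : ℝ)) := by
  have h1 := int_Bt (a := 3 / 2) (by norm_num) (by norm_num) 0
  have h2 := int_Bt (a := 3 / 2) (by norm_num) (by norm_num) (s : ℂ)
  have h3 := int_Bt (a := 1) (by norm_num) (by norm_num) 0
  have h4 := int_Bt (a := 1 / 2) (by norm_num) (by norm_num) 0
  have l1 := le_Bt (a := 3 / 2) (by norm_num) (by norm_num) 0
  have l2 := le_Bt (a := 3 / 2) (by norm_num) (by norm_num) (s : ℂ)
  have l3 := le_Bt (a := 1) (by norm_num) (by norm_num) 0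
  have l4 := le_Bt (a := 1 / 2) (by norm_num) (by norm_num) 0
  have i12 : IntegrableOn (fun y : ℂ => ‖y - 0‖ ^ (-(3 / 2) : ℝ) + ‖y - s‖ ^ (-(3 / 2) : ℝ)) Bt :=
    h1.add h2
  have i4 : IntegrableOn (fun y : ℂ => 1 + 50 * ‖y - 0‖ ^ (-(1 / 2) : ℝ)) Bt :=
    int_one.add (h4.const_mul 50)
  have i34 : IntegrableOn (fun y : ℂ => ‖y - 0‖ ^ (-1 : ℝ) + (1 + 50 * ‖y - 0‖ ^ (-(1 / 2) : ℝ)))
      Bt := h3.add i4
  have e1 : ∫ y in Bt, ee d s y = (240 * d + 20 * s ^ (1 / 4 : ℝ)) *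
      ((∫ y in Bt, ‖y - 0‖ ^ (-(3 / 2) : ℝ)) + ∫ y in Bt, ‖y - s‖ ^ (-(3 / 2) : ℝ)) +
      d * ((∫ y in Bt, ‖y - 0‖ ^ (-1 : ℝ)) + ((∫ y in Bt, (1 : ℝ)) +
        50 * ∫ y in Bt, ‖y - 0‖ ^ (-(1 / 2) : ℝ))) := by
    unfold ee
    rw [integral_add (i12.const_mul _) (i34.const_mul _), integral_const_mul, integral_const_mul,
      integral_add h1 h2, integral_add h3 i4, integral_add int_one (h4.const_mul 50),
      integral_const_mul]
  have v1 : ∫ y in Bt, (1 : ℝ) = 100 * π := by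
    rw [setIntegral_const, smul_eq_mul, mul_one, measureReal_def, Bt, Complex.volume_closedBall,
      ENNReal.toReal_mul, ENNReal.toReal_pow, ENNReal.toReal_ofReal (by norm_num)]
    norm_num
  have hπ : π ≤ 3.1416 := Real.pi_lt_d4.le
  have hπ0 := Real.pi_pos
  have r1 : (10 : ℝ) ^ (2 - 3 / 2 : ℝ) ≤ 3.2 := by
    have h7 : ((10 : ℝ) ^ (2 - 3 / 2 : ℝ)) ^ 2 ≤ 3.2 ^ 2 := by
      rw [← Real.rpow_natCast, ← Real.rpow_mul (by norm_num)]
      norm_num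
    exact le_of_sq_le_sq h7 (by norm_num)
  have r3 : (10 : ℝ) ^ (2 - 1 : ℝ) = 10 := by norm_num
  have r4 : (10 : ℝ) ^ (2 - 1 / 2 : ℝ) ≤ 32 := by
    have h7 : ((10 : ℝ) ^ (2 - 1 / 2 : ℝ)) ^ 2 ≤ 32 ^ 2 := by
      rw [← Real.rpow_natCast, ← Real.rpow_mul (by norm_num)]
      norm_num
    exact le_of_sq_le_sq h7 (by norm_num)
  have b1 : 2 * π / (2 - 3 / 2) * (10 : ℝ) ^ (2 - 3 / 2 : ℝ) ≤ 42 := by
    have : 2 * π / (2 - 3 / 2) = 4 * π := by ring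
    rw [this]
    nlinarith
  have b3 : 2 * π / (2 - 1) * (10 : ℝ) ^ (2 - 1 : ℝ) ≤ 63 := by
    rw [r3]
    have : 2 * π / (2 - 1) = 2 * π := by ring
    rw [this]
    linarith
  have b4 : 2 * π / (2 - 1 / 2) * (10 : ℝ) ^ (2 - 1 / 2 : ℝ) ≤ 140 := by
    have : 2 * π / (2 - 1 / 2) = 4 / 3 * π := by ring
    rw [this]
    nlinarith
  have hs4 : 0 < s ^ (1 / 4 : ℝ) := Real.rpow_pos_of_pos hs _
  rw [e1, v1]
  have c1 : (∫ y in Bt, ‖y - 0‖ ^ (-(3 / 2) : ℝ)) + ∫ y in Bt, ‖y - s‖ ^ (-(3 / 2) : ℝ) ≤ 84 := by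
    linarith
  have c2 : (∫ y in Bt, ‖y - 0‖ ^ (-1 : ℝ)) + (100 * π +
        50 * ∫ y in Bt, ‖y - 0‖ ^ (-(1 / 2) : ℝ)) ≤ 7400 := by
    linarith
  nlinarith [mul_le_mul_of_nonneg_left c1 (by positivity : 0 ≤ 240 * d + 20 * s ^ (1 / 4 : ℝ)),
    mul_le_mul_of_nonneg_left c2 hd.le]

/-- the pointwise bound in the ball -/
theorem near_le {d s lam : ℝ} (hd : 0 < d) (hd1 : d ≤ 1 / 10) (hs : 0 < s) (hs1 : s ≤ 1 / 3)
    (hl : 0 ≤ lam) (hl1 : lam ≤ 1) {b : ℝ} (hb : |b| ≤ 1 / 8) {y : ℂ} (hy : y ≠ 0) (hys : y ≠ s)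
    (hB : y ∈ Bt) :
    qq d s y + (b - 1 / 2) * ‖y‖ ^ (-d) + d * lam * (|qq d s y| + ‖y‖ ^ (-d)) ≤
      max (hk y + b - 1 / 2) 0 + ee d s y := by
  have ha : 0 < ‖y‖ := norm_pos_iff.mpr hy
  have hy10 : ‖y‖ ≤ 10 := by
    rwa [Bt, mem_closedBall, dist_zero_right] at hB
  have h1 := qq_near hd (by linarith) hs hs1 hy hys hB
  have h2 := rpow_sub_one hd (by linarith : d ≤ 1 / 4) ha (by linarith)
  have h3 := abs_hk_le y
  have h4 := le_max_left (hk y + b - 1 / 2) 0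
  have hb' := abs_le.mp hb
  have h5 : 0 < ‖y‖ ^ (-(1 / 2) : ℝ) := Real.rpow_pos_of_pos ha _
  have h6 : 0 < ‖y‖ ^ (-1 : ℝ) := Real.rpow_pos_of_pos ha _
  have hdl : d * lam ≤ d := by nlinarith
  have hdl0 : 0 ≤ d * lam := by positivity
  set X := |qq d s y - hk y| with hX
  set Y := |‖y‖ ^ (-d) - 1| with hY
  have hX0 : 0 ≤ X := abs_nonneg _
  have hY0 : 0 ≤ Y := abs_nonneg _
  have q1 : qq d s y ≤ hk y + X := by linarith [le_abs_self (qq d s y - hk y)]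
  have q2 : |qq d s y| ≤ ‖y‖ ^ (-1 : ℝ) + X := by
    have : qq d s y = hk y + (qq d s y - hk y) := by ring
    calc |qq d s y| = |hk y + (qq d s y - hk y)| := by rw [← this]
      _ ≤ |hk y| + X := abs_add_le _ _
      _ ≤ _ := by linarith
  have q3 : ‖y‖ ^ (-d) ≤ 1 + Y := by linarith [le_abs_self (‖y‖ ^ (-d) - 1)]
  have q4 : (b - 1 / 2) * ‖y‖ ^ (-d) ≤ (b - 1 / 2) + Y := by
    have e1 : (b - 1 / 2) * ‖y‖ ^ (-d) = (b - 1 / 2) + (b - 1 / 2) * (‖y‖ ^ (-d) - 1) := by ring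
    rw [e1]
    have e2 : (b - 1 / 2) * (‖y‖ ^ (-d) - 1) ≤ |b - 1 / 2| * Y := by
      rw [hY, ← abs_mul]
      exact le_abs_self _
    have e3 : |b - 1 / 2| ≤ 1 := by
      rw [abs_le]
      constructor <;> linarith
    nlinarith
  have q5 : d * lam * (|qq d s y| + ‖y‖ ^ (-d)) ≤ d * (‖y‖ ^ (-1 : ℝ) + X + 1 + Y) := by
    have e0 : 0 ≤ |qq d s y| + ‖y‖ ^ (-d) := by positivity
    calc d * lam * (|qq d s y| + ‖y‖ ^ (-d)) ≤ d * (|qq d s y| + ‖y‖ ^ (-d)) :=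
          mul_le_mul_of_nonneg_right hdl e0
      _ ≤ _ := mul_le_mul_of_nonneg_left (by linarith) hd.le
  have hdX : d * X ≤ X := by nlinarith
  have hdY : d * Y ≤ 1 / 10 * Y := by nlinarith
  have hd1' : 0 < d := hd
  have e5 : 44 * d * ‖y‖ ^ (-(1 / 2) : ℝ) ≤ d * (50 * ‖y‖ ^ (-(1 / 2) : ℝ)) := by
    nlinarith [mul_pos hd h5]
  unfold ee
  rw [sub_zero]
  have h1' : 2 * X ≤ (240 * d + 20 * s ^ (1 / 4 : ℝ)) *
      (‖y‖ ^ (-(3 / 2) : ℝ) + ‖y - s‖ ^ (-(3 / 2) : ℝ)) := by linarith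
  have h2' : 11 / 10 * Y ≤ 44 * d * ‖y‖ ^ (-(1 / 2) : ℝ) := by linarith
  linarith

/-- the majorant -/
theorem bound_H {d s lam ν Kc : ℝ} (hd : 0 < d) (hd1 : d ≤ 1 / 10) (hs : 0 < s) (hs1 : s ≤ 1 / 3)
    (hl : 0 ≤ lam) (hl1 : lam ≤ 1) {b c : ℂ → ℝ} (hbm : Measurable b) (hν : 0 ≤ ν) (hν1 : ν ≤ 1 / 8)
    (hb : ∀ y, |b y| ≤ ν) (hc : Integrable c) (hc0 : ∀ y, 0 ≤ c y) (hK : ∫ y, c y ≤ Kc) :
    ∃ H : ℂ → ℝ, Integrable H ∧ (∀ y, 0 ≤ H y) ∧
      (∀ᵐ y : ℂ, qq d s y + (b y - 1 / 2) * ‖y‖ ^ (-d) + d * lam * (|qq d s y| + ‖y‖ ^ (-d)) +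
        c y ≤ H y) ∧
      ∫ y, H y ≤ π / 2 + (∫ y in Dk, b y) + 10 * π * ν ^ 2 + Kc +
        30000 * (d + s ^ (1 / 4 : ℝ)) := by
  have hbi : IntegrableOn b Bt := by
    refine Integrable.mono' (g := fun _ => ν) (integrableOn_const vol_Bt) hbm.aestronglyMeasurable
      (Filter.Eventually.of_forall fun w => ?_)
    rw [Real.norm_eq_abs]
    exact hb w
  have i1 : IntegrableOn (fun y => max (hk y + b y - 1 / 2) 0) Bt :=
    ((int_hk_Bt.add hbi).sub (integrableOn_const vol_Bt)).pos_part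
  have i2 : IntegrableOn (fun y => max (hk y + b y - 1 / 2) 0 + ee d s y) Bt := i1.add int_ee
  refine ⟨fun y => Bt.indicator (fun y => max (hk y + b y - 1 / 2) 0 + ee d s y) y + c y,
    (i2.integrable_indicator meas_Bt).add hc, ?_, ?_, ?_⟩
  · intro y
    refine add_nonneg (indicator_nonneg (fun y _ => ?_) y) (hc0 y)
    exact add_nonneg (le_max_right _ _) (ee_nonneg hd hs y)
  · have hp : ∀ᵐ y : ℂ, y ≠ 0 := by simp [ae_iff]
    have hq : ∀ᵐ y : ℂ, y ≠ (s : ℂ) := by simp [ae_iff]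
    filter_upwards [hp, hq] with y hy hys
    refine add_le_add ?_ le_rfl
    by_cases hB : y ∈ Bt
    · rw [indicator_of_mem hB]
      exact near_le hd hd1 hs hs1 hl hl1 ((hb y).trans hν1) hy hys hB
    · rw [indicator_of_notMem hB]
      have hy10 : 10 < ‖y‖ := by
        rw [Bt, mem_closedBall, dist_zero_right, not_le] at hB
        exact hB
      have h1 := far_qq hd (by linarith) hs hs1 hy10
      have h2 : 0 < ‖y‖ ^ (-d) := Real.rpow_pos_of_pos (by linarith) _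
      have h3 := le_abs_self (qq d s y)
      have h4 := (abs_le.mp ((hb y).trans hν1)).2
      have h5 : d * lam * (|qq d s y| + ‖y‖ ^ (-d)) ≤ 1 / 10 * (9 / 8 * ‖y‖ ^ (-d)) := by
        have h6 : d * lam ≤ 1 / 10 := by nlinarith
        refine mul_le_mul h6 (by linarith) (by positivity) (by norm_num)
      have h7 : (b y - 1 / 2) * ‖y‖ ^ (-d) ≤ -(3 / 8) * ‖y‖ ^ (-d) :=
        mul_le_mul_of_nonneg_right (by linarith) h2.le
      nlinarith
  · rw [integral_add (i2.integrable_indicator meas_Bt) hc, integral_indicator meas_Bt,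
      integral_add i1 int_ee]
    have h1 := ee_le hd hs
    have h2 : ∫ y in Bt, max (hk y + b y - 1 / 2) 0 ≤
        π / 2 + (∫ y in Dk, b y) + 10 * π * ν ^ 2 := by
      rcases hν.eq_or_lt with h | h
      · have hb0 : ∀ y, b y = 0 := fun y => by
          have := hb y
          rw [← h] at this
          exact abs_nonpos_iff.mp this
        have h3 := pos_part (g := fun _ => (0 : ℝ)) measurable_const (fun _ => by simp)
          (ν := 0) (by norm_num)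
        simp only [hb0, ← h]
        simpa using h3
      · have h3 := pos_part (g := fun y => b y / ν) (hbm.div_const ν) (fun y => by
          rw [abs_div, abs_of_pos h, div_le_one h]
          exact hb y) (ν := ν) (by rwa [abs_of_pos h])
        have h4 : ∀ y, ν * (b y / ν) = b y := fun y => by
          field_simp
        simp only [h4] at h3
        rw [← integral_const_mul] at h3
        simp only [h4] at h3
        exact h3
    linarith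

end Pool.Agent.Helper17.G3
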