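import Pool.Agent.Helper90.G2.Heights

/-!
# G3-DISK: bounded univalent functions on the unit disk

`F (u) = φ (e^(-u))` on the right half plane satisfies `Fn F (π M²)`; `|F' (y + i ξ)| = |φ' (r e^(-iξ))| r`,
`y = -log r ≥ 1 - r`. For `r < e^(-1)` the derivative is bounded by Cauchy's estimate.
-/

set_option autoImplicit false

namespace Pool.Agent.Helper17.G3

open MeasureTheory Set
open scoped Real
open Pool.Agent.Helper90.G2 (Bx Fn Heights_cont)

theorem Disk_point {r : ℝ} (hr : 0 < r) (θ : ℝ) :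
    Complex.exp (-(⟨-Real.log r, -θ⟩ : ℂ)) = (r : ℂ) * Complex.exp ((θ : ℂ) * Complex.I) := by
  have h : -(⟨-Real.log r, -θ⟩ : ℂ) = ((Real.log r : ℝ) : ℂ) + (θ : ℂ) * Complex.I := by
    apply Complex.ext <;> simp
  rw [h, Complex.exp_add, ← Complex.ofReal_exp, Real.exp_log hr]

theorem Disk_norm {r : ℝ} (hr : 0 < r) (θ : ℝ) :
    ‖(r : ℂ) * Complex.exp ((θ : ℂ) * Complex.I)‖ = r := by
  rw [norm_mul, Complex.norm_exp_ofReal_mul_I, mul_one, Complex.norm_real, Real.norm_eq_abs,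
    abs_of_pos hr]

theorem Disk_chain {φ : ℂ → ℂ} (hφ : DifferentiableOn ℂ φ (Metric.ball 0 1)) {r : ℝ} (hr : 0 < r)
    (hr1 : r < 1) (θ : ℝ) :
    ‖deriv (fun u => φ (Complex.exp (-u))) ⟨-Real.log r, -θ⟩‖ =
      ‖deriv φ ((r : ℂ) * Complex.exp ((θ : ℂ) * Complex.I))‖ * r := by
  have hmem : (r : ℂ) * Complex.exp ((θ : ℂ) * Complex.I) ∈ Metric.ball (0:ℂ) 1 := by
    rw [mem_ball_zero_iff, Disk_norm hr]
    exact hr1
  have h1 : HasDerivAt φ (deriv φ (Complex.exp (-(⟨-Real.log r, -θ⟩ : ℂ))))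
      (Complex.exp (-(⟨-Real.log r, -θ⟩ : ℂ))) := by
    rw [Disk_point hr]
    exact ((hφ _ hmem).differentiableAt (Metric.isOpen_ball.mem_nhds hmem)).hasDerivAt
  have h0 : HasDerivAt (fun u : ℂ => Complex.exp (-u))
      (Complex.exp (-(⟨-Real.log r, -θ⟩ : ℂ)) * (-1)) (⟨-Real.log r, -θ⟩ : ℂ) :=
    (hasDerivAt_neg' (⟨-Real.log r, -θ⟩ : ℂ)).cexp
  have h2 := h1.comp (⟨-Real.log r, -θ⟩ : ℂ) h0
  have h3 : deriv (fun u => φ (Complex.exp (-u))) ⟨-Real.log r, -θ⟩ =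
      deriv φ (Complex.exp (-(⟨-Real.log r, -θ⟩ : ℂ))) *
        (Complex.exp (-(⟨-Real.log r, -θ⟩ : ℂ)) * (-1)) := h2.deriv
  rw [h3, norm_mul, norm_mul, norm_neg, norm_one, mul_one, Disk_point hr, Disk_norm hr]

/-- bounded univalent functions belong to the class -/
theorem disk_fn {φ : ℂ → ℂ} {M : ℝ} (hφ : DifferentiableOn ℂ φ (Metric.ball 0 1))
    (hinj : Set.InjOn φ (Metric.ball 0 1)) (hM : ∀ z ∈ Metric.ball (0:ℂ) 1, ‖φ z‖ ≤ M) :
    Fn (fun u => φ (Complex.exp (-u))) (π * M ^ 2) := by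
  have hM0 : 0 ≤ M := (norm_nonneg _).trans (hM 0 (Metric.mem_ball_self one_pos))
  have hm : ∀ u : ℂ, 0 < u.re → Complex.exp (-u) ∈ Metric.ball (0:ℂ) 1 := by
    intro u hu
    rw [mem_ball_zero_iff, Complex.norm_exp, ← Real.exp_zero]
    apply Real.exp_lt_exp.mpr
    simpa using hu
  refine ⟨?_, ?_, ?_, ?_⟩
  · exact hφ.comp (by fun_prop) (fun u hu => hm u hu)
  · intro c u hu v hv h
    have h1 : Complex.exp (-u) = Complex.exp (-v) := hinj (hm u hu.1) (hm v hv.1) h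
    rw [Complex.exp_eq_exp_iff_exists_int] at h1
    obtain ⟨n, hn⟩ := h1
    have h2 : v.im = u.im + n * (2 * π) := by
      have := congrArg Complex.im hn
      simp at this
      linarith
    have h3 := abs_lt.mp hu.2
    have h4 := abs_lt.mp hv.2
    have h5 : |(n:ℝ)| < 1 := by
      rw [abs_lt]
      constructor <;> nlinarith [Real.pi_pos]
    have h6 : n = 0 := by
      have : |n| < 1 := by exact_mod_cast h5
      exact Int.abs_lt_one_iff.mp this
    rw [h6] at hn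
    simp at hn
    exact hn
  · intro u _
    show φ _ = φ _
    congr 1
    have h : -(u + 2 * π * Complex.I) = -u - 2 * π * Complex.I := by ring
    rw [h, Complex.exp_sub, Complex.exp_two_pi_mul_I, div_one]
  · intro c
    have h1 : (fun u => φ (Complex.exp (-u))) '' Bx c 1 ⊆ Metric.closedBall 0 M := by
      rintro _ ⟨u, hu, rfl⟩
      rw [mem_closedBall_zero_iff]
      exact hM _ (hm u hu.1)
    refine (measure_mono h1).trans ?_
    rw [Complex.volume_closedBall]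
    rw [← ENNReal.ofReal_pow hM0, ← ENNReal.ofReal_coe_nnreal, NNReal.coe_real_pi,
      ← ENNReal.ofReal_mul (by positivity)]
    apply ENNReal.ofReal_le_ofReal
    linarith [mul_comm π (M ^ 2)]

/-- from the right half plane to bounded univalent functions on the unit disk, any exponent -/
theorem disk_core {δ β : ℝ} (hδ1 : δ ≤ 2) (hβ0 : 0 ≤ β)
    (hh : ∀ A : ℝ, 0 ≤ A → ∃ C : ℝ, 0 ≤ C ∧ ∀ F : ℂ → ℂ, Fn F A → ∀ y : ℝ, 0 < y → y ≤ 1 →
      ∫ ξ in (0:ℝ)..(2 * π), ‖deriv F ⟨y, ξ⟩‖ ^ (2 - δ) ≤ C * y ^ (-β)) (M : ℝ) :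
    ∃ C : ℝ, ∀ φ : ℂ → ℂ, DifferentiableOn ℂ φ (Metric.ball 0 1) →
    Set.InjOn φ (Metric.ball 0 1) → (∀ z ∈ Metric.ball (0:ℂ) 1, ‖φ z‖ ≤ M) →
    ∀ r : ℝ, 0 < r → r < 1 →
      (1 / (2 * π)) * ∫ θ in (0:ℝ)..(2 * π),
        ‖deriv φ ((r : ℂ) * Complex.exp ((θ : ℂ) * Complex.I))‖ ^ (2 - δ) ≤
      C * (1 - r) ^ (-β) := by
  obtain ⟨C, hC, hh⟩ := hh (π * M ^ 2) (by positivity)
  obtain ⟨p, hp⟩ : ∃ p : ℝ, p = 2 - δ := ⟨_, rfl⟩
  have hp0 : 0 ≤ p := by linarith
  have hπ : 0 < π := Real.pi_pos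
  have he : 0 < Real.exp 1 := Real.exp_pos 1
  refine ⟨(1 / (2 * π)) * (Real.exp 1 ^ p * C) + (2 * |M|) ^ p, ?_⟩
  intro φ hφ hinj hM r hr hr1
  rw [← hp]
  have hM0 : 0 ≤ M := (norm_nonneg _).trans (hM 0 (Metric.mem_ball_self one_pos))
  have hF := disk_fn hφ hinj hM
  have hlog : 0 < -Real.log r := by
    have := Real.log_neg hr hr1
    linarith
  have h1r : 0 < 1 - r := by linarith
  have hX0 : 0 ≤ (1 - r) ^ (-β) := Real.rpow_nonneg h1r.le _
  have hX1 : 1 ≤ (1 - r) ^ (-β) :=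
    Real.one_le_rpow_of_pos_of_le_one_of_nonpos h1r (by linarith) (by linarith)
  have hAp : 0 ≤ (2 * |M|) ^ p := Real.rpow_nonneg (by positivity) p
  have hcont := Heights_cont hF hlog hp0
  obtain ⟨g, hg⟩ : ∃ g : ℝ → ℝ, g = fun ξ : ℝ =>
    ‖deriv (fun u => φ (Complex.exp (-u))) ⟨-Real.log r, ξ⟩‖ ^ p := ⟨_, rfl⟩
  have heq : ∀ θ : ℝ, ‖deriv φ ((r : ℂ) * Complex.exp ((θ : ℂ) * Complex.I))‖ ^ p =
      (r⁻¹) ^ p * g (-θ) := by
    intro θ
    rw [hg]
    simp only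
    rw [Disk_chain hφ hr hr1, ← Real.mul_rpow (by positivity) (by positivity)]
    congr 1
    field_simp
  have hper : Function.Periodic g (2 * π) := by
    intro ξ
    have h1 := heq (-ξ)
    have h2 := heq (-(ξ + 2 * π))
    rw [neg_neg] at h1 h2
    have h3 : Complex.exp (((-(ξ + 2 * π) : ℝ) : ℂ) * Complex.I) =
        Complex.exp (((-ξ : ℝ) : ℂ) * Complex.I) := by
      have h : ((-(ξ + 2 * π) : ℝ) : ℂ) * Complex.I =
        ((-ξ : ℝ) : ℂ) * Complex.I - 2 * π * Complex.I := by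
        push_cast
        ring
      rw [h, Complex.exp_sub, Complex.exp_two_pi_mul_I, div_one]
    rw [h3, h1] at h2
    have h4 : 0 < (r⁻¹) ^ p := Real.rpow_pos_of_pos (by positivity) _
    exact (mul_left_cancel₀ h4.ne' h2).symm
  have hint : ∫ θ in (0:ℝ)..(2 * π),
        ‖deriv φ ((r : ℂ) * Complex.exp ((θ : ℂ) * Complex.I))‖ ^ p =
        (r⁻¹) ^ p * ∫ ξ in (0:ℝ)..(2 * π), g ξ := by
    have h1 : ∫ θ in (0:ℝ)..(2 * π),
        ‖deriv φ ((r : ℂ) * Complex.exp ((θ : ℂ) * Complex.I))‖ ^ p =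
        ∫ θ in (0:ℝ)..(2 * π), (r⁻¹) ^ p * g (-θ) :=
      intervalIntegral.integral_congr fun θ _ => heq θ
    rw [h1, intervalIntegral.integral_const_mul, intervalIntegral.integral_comp_neg]
    congr 1
    have h2 := hper.intervalIntegral_add_eq (-(2 * π)) 0
    rw [neg_add_cancel, zero_add] at h2
    rw [neg_zero]
    exact h2
  have h4 : 0 ≤ ∫ ξ in (0:ℝ)..(2 * π), g ξ := by
    apply intervalIntegral.integral_nonneg (by positivity)
    intro θ _
    rw [hg]
    positivity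
  rcases le_or_gt (Real.exp (-1)) r with hre | hre
  · have hlog1 : -Real.log r ≤ 1 := by
      have := Real.log_le_log (Real.exp_pos _) hre
      rw [Real.log_exp] at this
      linarith
    have h1 := hh _ hF (-Real.log r) hlog hlog1
    rw [← hp] at h1
    have h1' : ∫ ξ in (0:ℝ)..(2 * π), g ξ ≤ C * (-Real.log r) ^ (-β) := by
      rw [hg]
      exact h1
    have h3 : (r⁻¹) ^ p ≤ Real.exp 1 ^ p := by
      apply Real.rpow_le_rpow (by positivity) _ hp0
      rw [inv_le_comm₀ hr he, ← Real.exp_neg]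
      exact hre
    have h5 : (-Real.log r) ^ (-β) ≤ (1 - r) ^ (-β) := by
      apply Real.rpow_le_rpow_of_nonpos h1r _ (by linarith)
      have := Real.log_le_sub_one_of_pos hr
      linarith
    rw [hint]
    have h6 : 0 ≤ C * (-Real.log r) ^ (-β) := mul_nonneg hC (Real.rpow_nonneg hlog.le _)
    calc (1 / (2 * π)) * ((r⁻¹) ^ p * ∫ ξ in (0:ℝ)..(2 * π), g ξ)
        ≤ (1 / (2 * π)) * (Real.exp 1 ^ p * (C * (-Real.log r) ^ (-β))) := by
          apply mul_le_mul_of_nonneg_left _ (by positivity)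
          exact mul_le_mul h3 h1' h4 (by positivity)
      _ ≤ (1 / (2 * π)) * (Real.exp 1 ^ p * (C * (1 - r) ^ (-β))) := by gcongr
      _ = (1 / (2 * π)) * (Real.exp 1 ^ p * C) * (1 - r) ^ (-β) := by ring
      _ ≤ ((1 / (2 * π)) * (Real.exp 1 ^ p * C) + (2 * |M|) ^ p) * (1 - r) ^ (-β) := by
        apply mul_le_mul_of_nonneg_right _ hX0
        linarith
  · have hr2 : r < 1 / 2 := by
      refine hre.trans ?_
      rw [Real.exp_neg, one_div]
      apply inv_strictAnti₀ (by norm_num)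
      exact lt_trans (by norm_num) Real.exp_one_gt_d9
    have hcont2 : Continuous fun θ : ℝ =>
        ‖deriv φ ((r : ℂ) * Complex.exp ((θ : ℂ) * Complex.I))‖ ^ p := by
      have : (fun θ : ℝ => ‖deriv φ ((r : ℂ) * Complex.exp ((θ : ℂ) * Complex.I))‖ ^ p) =
          fun θ : ℝ => (r⁻¹) ^ p * g (-θ) := funext heq
      rw [this, hg]
      exact continuous_const.mul (hcont.comp continuous_neg)
    have hd : ∀ z : ℂ, ‖z‖ < 1 / 2 → ‖deriv φ z‖ ≤ 2 * |M| := by
      intro z hz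
      have hsub : Metric.closedBall z (1 / 2) ⊆ Metric.ball (0:ℂ) 1 := by
        intro v hv
        rw [mem_closedBall_iff_norm] at hv
        rw [mem_ball_zero_iff]
        have := norm_sub_norm_le v z
        linarith
      have hd : DiffContOnCl ℂ φ (Metric.ball z (1 / 2)) := by
        apply DifferentiableOn.diffContOnCl
        rw [closure_ball z (by positivity)]
        exact hφ.mono hsub
      have h1 := Complex.norm_deriv_le_of_forall_mem_sphere_norm_le (c := z) (R := 1 / 2)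
        (C := M) (by positivity) hd (fun v hv => hM v (hsub (Metric.sphere_subset_closedBall hv)))
      rw [abs_of_nonneg hM0]
      linarith
    have h2 : ∫ θ in (0:ℝ)..(2 * π),
        ‖deriv φ ((r : ℂ) * Complex.exp ((θ : ℂ) * Complex.I))‖ ^ p ≤
        ∫ _ in (0:ℝ)..(2 * π), (2 * |M|) ^ p := by
      apply intervalIntegral.integral_mono_on (by positivity)
        (hcont2.intervalIntegrable _ _) (continuous_const.intervalIntegrable _ _)
      intro θ _
      apply Real.rpow_le_rpow (norm_nonneg _) _ hp0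
      apply hd
      rw [Disk_norm hr]
      exact hr2
    rw [intervalIntegral.integral_const, smul_eq_mul, sub_zero] at h2
    have h0 : 0 ≤ (1 / (2 * π)) * (Real.exp 1 ^ p * C) := by positivity
    calc (1 / (2 * π)) * ∫ θ in (0:ℝ)..(2 * π),
          ‖deriv φ ((r : ℂ) * Complex.exp ((θ : ℂ) * Complex.I))‖ ^ p
        ≤ (1 / (2 * π)) * (2 * π * (2 * |M|) ^ p) := by gcongr
      _ = (2 * |M|) ^ p := by field_simp
      _ ≤ (2 * |M|) ^ p * (1 - r) ^ (-β) := le_mul_of_one_le_right hAp hX1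
      _ ≤ ((1 / (2 * π)) * (Real.exp 1 ^ p * C) + (2 * |M|) ^ p) * (1 - r) ^ (-β) := by
        apply mul_le_mul_of_nonneg_right _ hX0
        linarith

end Pool.Agent.Helper17.G3
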