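import Pool.Agent.Helper39.G2.Shift

/-!
# G3: the kernel `h (w) = re w / |w|^2` and its level sets
-/

set_option autoImplicit false
set_option linter.unusedVariables false

namespace Pool.Agent.Helper17.G3

open MeasureTheory Set Metric
open scoped Real

/-- `re (1 / w)` -/
noncomputable def hk (w : ℂ) : ℝ := w.re / ‖w‖ ^ 2

/-- the disk tangent to the imaginary axis at `0` -/
def Dk : Set ℂ := ball 1 1

theorem hk_zero : hk 0 = 0 := by simp [hk]

theorem abs_hk_le (w : ℂ) : |hk w| ≤ ‖w‖ ^ (-1 : ℝ) := by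
  rcases eq_or_ne w 0 with h | h
  · subst h
    rw [hk_zero, abs_zero]
    exact Real.rpow_nonneg (norm_nonneg _) _
  · have hw : 0 < ‖w‖ := norm_pos_iff.mpr h
    rw [hk, abs_div, abs_of_pos (by positivity : 0 < ‖w‖ ^ 2), Real.rpow_neg hw.le, Real.rpow_one,
      div_le_iff₀ (by positivity)]
    have h1 := Complex.abs_re_le_norm w
    have h2 : ‖w‖⁻¹ * ‖w‖ ^ 2 = ‖w‖ := by field_simp
    rwa [h2]

/-- level sets -/
theorem hk_level {t : ℝ} (ht : 0 < t) :
    {w : ℂ | t < hk w} = ball (((1 / (2 * t) : ℝ)) : ℂ) (1 / (2 * t)) := by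
  ext w
  rw [mem_ball, dist_eq_norm, mem_ofPred_eq]
  have h2t : 0 < 1 / (2 * t) := by positivity
  have e1 : ‖w - ((1 / (2 * t) : ℝ) : ℂ)‖ ^ 2 = ‖w‖ ^ 2 - w.re / t + (1 / (2 * t)) ^ 2 := by
    rw [Complex.sq_norm, Complex.sq_norm, Complex.normSq_apply, Complex.normSq_apply]
    simp only [Complex.sub_re, Complex.sub_im, Complex.ofReal_re, Complex.ofReal_im]
    field_simp
    ring
  rcases eq_or_ne w 0 with h | h
  · subst h
    rw [hk_zero]
    constructor
    · intro h3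
      linarith
    · intro h3
      rw [zero_sub, norm_neg, Complex.norm_real, Real.norm_eq_abs, abs_of_pos h2t] at h3
      linarith
  · have hw : 0 < ‖w‖ := norm_pos_iff.mpr h
    have hw2 : 0 < ‖w‖ ^ 2 := by positivity
    constructor
    · intro h3
      rw [hk, lt_div_iff₀ hw2] at h3
      refine lt_of_pow_lt_pow_left₀ 2 h2t.le ?_
      rw [e1]
      have h4 : ‖w‖ ^ 2 < w.re / t := by
        rw [lt_div_iff₀ ht]
        linarith
      linarith
    · intro h3
      rw [hk, lt_div_iff₀ hw2]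
      have h4 := pow_lt_pow_left₀ h3 (norm_nonneg _) two_ne_zero
      rw [e1] at h4
      have h5 : ‖w‖ ^ 2 < w.re / t := by linarith
      rw [lt_div_iff₀ ht] at h5
      linarith

theorem volume_hk {t : ℝ} (ht : 0 < t) :
    volume {w : ℂ | t < hk w} = ENNReal.ofReal (π * (1 / (2 * t)) ^ 2) := by
  rw [hk_level ht, Complex.volume_ball, mul_comm π, ENNReal.ofReal_mul (by positivity),
    ← ENNReal.ofReal_pow (by positivity), ← NNReal.coe_real_pi, ENNReal.ofReal_coe_nnreal]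

theorem measurable_hk : Measurable hk := by
  unfold hk
  fun_prop

theorem mem_Dk {w : ℂ} : w ∈ Dk ↔ 1 / 2 < hk w := by
  have h := hk_level (t := 1 / 2) (by norm_num)
  have h2 : ((1 / (2 * (1 / 2)) : ℝ)) = 1 := by norm_num
  rw [h2] at h
  have h3 : w ∈ {w : ℂ | 1 / 2 < hk w} ↔ w ∈ ball (((1 : ℝ)) : ℂ) 1 := by rw [h]
  rw [Complex.ofReal_one] at h3
  exact h3.symm

/-- the band -/
theorem volume_band {ν : ℝ} (h0 : 0 < ν) (h1 : ν ≤ 1 / 8) :
    volume {w : ℂ | |hk w - 1 / 2| < ν} ≤ ENNReal.ofReal (10 * π * ν) := by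
  have hsub : {w : ℂ | |hk w - 1 / 2| < ν} ⊆
      {w : ℂ | 1 / 2 - ν < hk w} \ {w : ℂ | 1 / 2 + ν < hk w} := by
    intro w hw
    simp only [mem_ofPred_eq, abs_lt] at hw
    refine ⟨by simp only [mem_ofPred_eq]; linarith [hw.1], ?_⟩
    simp only [mem_ofPred_eq, not_lt]
    linarith [hw.2]
  refine (measure_mono hsub).trans ?_
  have hs2 : {w : ℂ | 1 / 2 + ν < hk w} ⊆ {w : ℂ | 1 / 2 - ν < hk w} := by
    intro w hw
    simp only [mem_ofPred_eq] at hw ⊢
    linarith
  have hm : MeasurableSet {w : ℂ | 1 / 2 + ν < hk w} :=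
    measurableSet_lt measurable_const measurable_hk
  rw [measure_sdiff hs2 hm.nullMeasurableSet (by
      rw [volume_hk (by linarith)]
      exact ENNReal.ofReal_ne_top),
    volume_hk (by linarith), volume_hk (by linarith), ← ENNReal.ofReal_sub _ (by positivity)]
  refine ENNReal.ofReal_le_ofReal ?_
  have hπ := Real.pi_pos
  have e1 : π * (1 / (2 * (1 / 2 - ν))) ^ 2 - π * (1 / (2 * (1 / 2 + ν))) ^ 2 =
      π * ν * (8 / ((1 - 4 * ν ^ 2) ^ 2)) := by
    have h2 : (1 - 2 * ν) ≠ 0 := by linarith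
    have h3 : (1 + 2 * ν) ≠ 0 := by linarith
    have h4 : (1 - 4 * ν ^ 2) = (1 - 2 * ν) * (1 + 2 * ν) := by ring
    have h5 : 2 * (1 / 2 - ν) = 1 - 2 * ν := by ring
    have h6 : 2 * (1 / 2 + ν) = 1 + 2 * ν := by ring
    rw [h4, h5, h6]
    field_simp
    ring
  rw [e1]
  have h5 : 15 / 16 ≤ 1 - 4 * ν ^ 2 := by nlinarith
  have h6 : 8 / ((1 - 4 * ν ^ 2) ^ 2) ≤ 10 := by
    rw [div_le_iff₀ (by positivity)]
    nlinarith
  have h7 : 0 < π * ν := by positivity
  nlinarith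

end Pool.Agent.Helper17.G3
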