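import Mathlib

/-!
# G3: templates

`Dk = ball 1 1`. `F1`: the template at the right scale and direction has the larger integral over the
disk; `F2`: for nearly the right scale and direction, moving the point inwards raises the integral.
-/

set_option autoImplicit false

namespace Pool.Agent.Helper17.G3

open MeasureTheory

/-- a template -/
structure Tm (k : ℂ → ℝ) (Lk ρ kinf c1 c2 e2 m1 : ℝ) : Prop where
  meas : Measurable k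
  bd : ∀ z, |k z| ≤ 1
  lip : ∀ z z', |k z - k z'| ≤ Lk * ‖z - z'‖
  far : ∀ z, ρ ≤ ‖z‖ → k z = kinf
  hL : 0 < Lk
  hρ : 0 < ρ
  hc1 : 0 < c1
  hc2 : 0 < c2
  he2 : 0 < e2
  he2' : e2 ≤ 1 / 2
  hm1 : 0 < m1
  F1 : ∀ ζ : ℂ, ζ ≠ 0 → e2 ≤ ‖1 / ζ - 1‖ →
    ∫ z in Metric.ball (1 : ℂ) 1, (k (z / ζ) - k z) ≤ -c1
  F2 : ∀ ζ : ℂ, ζ ≠ 0 → ‖1 / ζ - 1‖ ≤ e2 → ∀ m : ℝ, 0 < m → m ≤ m1 →
    c2 * m ≤ ∫ z in Metric.ball (1 : ℂ) 1, (k ((z - ((2 * m : ℝ) : ℂ)) / ζ) - k (z / ζ))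

end Pool.Agent.Helper17.G3
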