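import Pool.Agent.Helper17.G3.Bound
import Pool.Agent.Helper17.G3.Tm

/-!
# G3: the key inequality for templates, normalised form
-/

set_option autoImplicit false
set_option linter.unusedVariables false

namespace Pool.Agent.Helper17.G3

open MeasureTheory Set Metric
open scoped Real

/-- the integrand -/
noncomputable def Phi (k : ℂ → ℝ) (d m lam nu : ℝ) (ζ y : ℂ) : ℝ :=
  ‖y - ((2 * m : ℝ) : ℂ)‖ ^ (-d) * (1 - d * lam * k ((y - ((2 * m : ℝ) : ℂ)) / ζ)) -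
    Real.exp (d * m) * ‖y‖ ^ (-d) * (1 - d * lam * k (y / ζ)) +
    nu * (d * lam) * ‖y‖ ^ (-d) * (k (y / ζ) - k y)

theorem Phi_le {k : ℂ → ℝ} (hk1 : ∀ z, |k z| ≤ 1) {d m lam nu : ℝ} (hd : 0 < d) (hd1 : d ≤ 1)
    (hm : 0 < m) (hl : 0 ≤ lam) (hl1 : lam ≤ 1) (ζ y : ℂ) :
    Phi k d m lam nu ζ y ≤ d * (2 * m) * (qq d (2 * m) y +
      (nu * lam / (2 * m) * (k (y / ζ) - k y) +
        lam / (2 * m) * (k (y / ζ) - k ((y - ((2 * m : ℝ) : ℂ)) / ζ)) - 1 / 2) * ‖y‖ ^ (-d) +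
      d * lam * (|qq d (2 * m) y| + ‖y‖ ^ (-d))) := by
  unfold Phi
  set A := ‖y - ((2 * m : ℝ) : ℂ)‖ ^ (-d) with hA
  set B := ‖y‖ ^ (-d) with hB
  set k1 := k ((y - ((2 * m : ℝ) : ℂ)) / ζ) with hk1'
  set k0 := k (y / ζ) with hk0
  have hB0 : 0 ≤ B := Real.rpow_nonneg (norm_nonneg _) _
  set Z := qq d (2 * m) y with hZ
  have hAB : A = B + d * (2 * m) * Z := by
    rw [hZ, qq, ← hA, ← hB]
    field_simp
    ring
  have h1 := abs_le.mp (hk1 ((y - ((2 * m : ℝ) : ℂ)) / ζ))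
  have h0 := abs_le.mp (hk1 (y / ζ))
  rw [← hk1'] at h1
  rw [← hk0] at h0
  have hdl : 0 ≤ d * lam := by positivity
  have hdl1 : d * lam ≤ 1 := by nlinarith
  have h2 : (1 + d * m) * (B * (1 - d * lam * k0)) ≤
      Real.exp (d * m) * (B * (1 - d * lam * k0)) := by
    refine mul_le_mul_of_nonneg_right ?_ (mul_nonneg hB0 (by nlinarith))
    have := Real.add_one_le_exp (d * m)
    linarith
  have h3 : -(k1 * Z) ≤ |Z| := by
    rw [← neg_mul]
    refine (le_abs_self _).trans ?_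
    rw [abs_mul, abs_neg]
    exact mul_le_of_le_one_left (abs_nonneg _) (abs_le.mpr h1)
  have h4 : d * m * (d * lam * (k0 * B)) ≤ d * m * (d * lam * (2 * B)) := by
    refine mul_le_mul_of_nonneg_left ?_ (by positivity)
    refine mul_le_mul_of_nonneg_left ?_ hdl
    nlinarith
  have h5 : d * (2 * m) * (d * lam * -(k1 * Z)) ≤ d * (2 * m) * (d * lam * |Z|) := by
    refine mul_le_mul_of_nonneg_left ?_ (by positivity)
    exact mul_le_mul_of_nonneg_left h3 hdl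
  rw [hAB]
  have e1 : d * (2 * m) * (Z + (nu * lam / (2 * m) * (k0 - k y) +
        lam / (2 * m) * (k0 - k1) - 1 / 2) * B + d * lam * (|Z| + B)) =
      d * (2 * m) * Z + (nu * (d * lam) * (k0 - k y) + d * lam * (k0 - k1) - d * m) * B +
        (d * (2 * m) * (d * lam * |Z|) + d * m * (d * lam * (2 * B))) := by
    field_simp
  rw [e1]
  nlinarith

theorem lip_ze {k : ℂ → ℝ} {Lk : ℝ} (hlip : ∀ z z', |k z - k z'| ≤ Lk * ‖z - z'‖) {s : ℝ}
    (hs : 0 < s) (ζ y : ℂ) :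
    |k (y / ζ) - k ((y - (s : ℂ)) / ζ)| ≤ Lk * (s * ‖1 / ζ‖) := by
  refine (hlip _ _).trans (le_of_eq ?_)
  have : y / ζ - (y - (s : ℂ)) / ζ = (s : ℂ) * (1 / ζ) := by ring
  rw [this, norm_mul, Complex.norm_real, Real.norm_eq_abs, abs_of_pos hs]

/-- bounded case -/
theorem case_bdd {k : ℂ → ℝ} (hkm : Measurable k) (hk1 : ∀ z, |k z| ≤ 1) {d m lam nu ν I : ℝ}
    (hd : 0 < d) (hd1 : d ≤ 1 / 10) (hm : 0 < m) (hm1 : 2 * m ≤ 1 / 3) (hl : 0 ≤ lam)
    (hl1 : lam ≤ 1) (ζ : ℂ) (hν : 0 ≤ ν) (hν1 : ν ≤ 1 / 8)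
    (hb : ∀ y, |nu * lam / (2 * m) * (k (y / ζ) - k y) +
        lam / (2 * m) * (k (y / ζ) - k ((y - ((2 * m : ℝ) : ℂ)) / ζ))| ≤ ν)
    (hI : ∫ y in Dk, (nu * lam / (2 * m) * (k (y / ζ) - k y) +
        lam / (2 * m) * (k (y / ζ) - k ((y - ((2 * m : ℝ) : ℂ)) / ζ))) ≤ I) :
    ∃ H : ℂ → ℝ, Integrable H ∧ (∀ y, 0 ≤ H y) ∧ (∀ᵐ y : ℂ, Phi k d m lam nu ζ y ≤ H y) ∧
      ∫ y, H y ≤ d * (2 * m) * (π / 2 + I + 10 * π * ν ^ 2 +
        30000 * (d + (2 * m) ^ (1 / 4 : ℝ))) := by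
  have hbm : Measurable fun y : ℂ => nu * lam / (2 * m) * (k (y / ζ) - k y) +
        lam / (2 * m) * (k (y / ζ) - k ((y - ((2 * m : ℝ) : ℂ)) / ζ)) := by
    fun_prop
  obtain ⟨H, h1, h2, h3, h4⟩ := bound_H (lam := lam) hd hd1 (by positivity : 0 < 2 * m) hm1 hl hl1
    hbm hν hν1 hb (c := fun _ => 0) (integrable_zero _ _ _) (fun _ => le_rfl) (Kc := 0) (by simp)
  refine ⟨fun y => d * (2 * m) * H y, h1.const_mul _, fun y => mul_nonneg (by positivity) (h2 y),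
    ?_, ?_⟩
  · filter_upwards [h3] with y hy
    refine (Phi_le hk1 hd (by linarith) hm hl hl1 ζ y).trans ?_
    refine mul_le_mul_of_nonneg_left ?_ (by positivity)
    linarith
  · rw [integral_const_mul]
    refine mul_le_mul_of_nonneg_left ?_ (by positivity)
    linarith

theorem int_sub_Dk {f g : ℂ → ℝ} (hf : Measurable f) (hf1 : ∀ y, |f y| ≤ 1) :
    IntegrableOn f Dk := by
  refine Integrable.mono' (g := fun _ => (1 : ℝ))
    (integrableOn_const (ne_top_of_le_ne_top vol_Bt (measure_mono Dk_sub))) hf.aestronglyMeasurable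
    (Filter.Eventually.of_forall fun w => ?_)
  rw [Real.norm_eq_abs]
  exact hf1 w

theorem vol_Dk : (volume Dk).toReal = π := by
  rw [Dk, Complex.volume_ball, ENNReal.toReal_mul, ENNReal.toReal_pow,
    ENNReal.toReal_ofReal (by norm_num)]
  norm_num

/-- good templates -/
theorem case_good {k : ℂ → ℝ} {Lk ρ kinf c1 c2 e2 m1 : ℝ} (hk : Tm k Lk ρ kinf c1 c2 e2 m1)
    {d m lam : ℝ} (hd : 0 < d) (hd1 : d ≤ 1 / 10) (hm : 0 < m) (hm1 : 2 * m ≤ 1 / 3)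
    (hmm : m ≤ m1) (hl : 0 < lam) (hl1 : lam ≤ 1) (hlL : lam * Lk ≤ 1 / 12)
    (hlc : 90 * π * (lam * Lk ^ 2) ≤ c2) {ζ : ℂ} (hζ : ζ ≠ 0) (hg : ‖1 / ζ - 1‖ ≤ e2) :
    ∃ H : ℂ → ℝ, Integrable H ∧ (∀ y, 0 ≤ H y) ∧ (∀ᵐ y : ℂ, Phi k d m lam 0 ζ y ≤ H y) ∧
      ∫ y, H y ≤ d * (2 * m) * (π / 2 - lam * c2 / 4 +
        30000 * (d + (2 * m) ^ (1 / 4 : ℝ))) := by
  have hz : ‖1 / ζ‖ ≤ 3 / 2 := by
    have h1 : 1 / ζ = (1 / ζ - 1) + 1 := by ring
    have h2 := norm_add_le (1 / ζ - 1) 1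
    rw [← h1, norm_one] at h2
    linarith [hk.he2']
  have hLk := hk.hL
  have hb : ∀ y, |0 * lam / (2 * m) * (k (y / ζ) - k y) +
        lam / (2 * m) * (k (y / ζ) - k ((y - ((2 * m : ℝ) : ℂ)) / ζ))| ≤ 3 / 2 * (lam * Lk) := by
    intro y
    have h1 := lip_ze hk.lip (by positivity : 0 < 2 * m) ζ y
    rw [zero_mul, zero_div, zero_mul, zero_add, abs_mul,
      abs_of_pos (by positivity : 0 < lam / (2 * m))]
    calc lam / (2 * m) * |k (y / ζ) - k ((y - ((2 * m : ℝ) : ℂ)) / ζ)|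
        ≤ lam / (2 * m) * (Lk * (2 * m * ‖1 / ζ‖)) := mul_le_mul_of_nonneg_left h1 (by positivity)
      _ = lam * Lk * ‖1 / ζ‖ := by field_simp
      _ ≤ lam * Lk * (3 / 2) := mul_le_mul_of_nonneg_left hz (by positivity)
      _ = _ := by ring
  have hI : ∫ y in Dk, (0 * lam / (2 * m) * (k (y / ζ) - k y) +
        lam / (2 * m) * (k (y / ζ) - k ((y - ((2 * m : ℝ) : ℂ)) / ζ))) ≤ -(lam * c2 / 2) := by
    have h1 := hk.F2 ζ hζ hg m hm hmm
    have h2 : ∀ y : ℂ, (0 * lam / (2 * m) * (k (y / ζ) - k y) +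
        lam / (2 * m) * (k (y / ζ) - k ((y - ((2 * m : ℝ) : ℂ)) / ζ))) =
        -(lam / (2 * m)) * (k ((y - ((2 * m : ℝ) : ℂ)) / ζ) - k (y / ζ)) := fun y => by ring
    simp only [h2]
    rw [integral_const_mul]
    have h3 : lam / (2 * m) * (c2 * m) ≤ lam / (2 * m) *
        ∫ z in ball (1 : ℂ) 1, (k ((z - ((2 * m : ℝ) : ℂ)) / ζ) - k (z / ζ)) :=
      mul_le_mul_of_nonneg_left h1 (by positivity)
    have h4 : lam / (2 * m) * (c2 * m) = lam * c2 / 2 := by field_simp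
    have h5 : Dk = ball (1 : ℂ) 1 := rfl
    rw [h5]
    linarith
  obtain ⟨H, h1, h2, h3, h4⟩ := case_bdd hk.meas hk.bd hd hd1 hm hm1 hl.le hl1 ζ (by positivity)
    (by linarith) hb hI
  refine ⟨H, h1, h2, h3, h4.trans ?_⟩
  refine mul_le_mul_of_nonneg_left ?_ (by positivity)
  have h5 : 10 * π * (3 / 2 * (lam * Lk)) ^ 2 = lam / 4 * (90 * π * (lam * Lk ^ 2)) := by ring
  have h6 : lam / 4 * (90 * π * (lam * Lk ^ 2)) ≤ lam / 4 * c2 :=
    mul_le_mul_of_nonneg_left hlc (by positivity)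
  linarith

/-- bad templates -/
theorem case_bad {k : ℂ → ℝ} {Lk ρ kinf c1 c2 e2 m1 : ℝ} (hk : Tm k Lk ρ kinf c1 c2 e2 m1)
    {d m lam ν₁ : ℝ} (hd : 0 < d) (hd1 : d ≤ 1 / 10) (hm : 0 < m) (hm1 : 2 * m ≤ 1 / 3)
    (hl : 0 < lam) (hl1 : lam ≤ 1) (hν : 0 < ν₁) (hν1 : ν₁ ≤ 1 / 32)
    (hνc : 640 * π * ν₁ ≤ c1) (hlL : lam * Lk ≤ 2 * ν₁) (hlc : 4 * π * (lam * Lk) ≤ ν₁ * c1)
    (hlC : 16 * π * (lam * Lk * (1 + 2 * ρ) ^ 2) ≤ ν₁ * c1)
    {ζ : ℂ} (hζ : ζ ≠ 0) (hg : e2 ≤ ‖1 / ζ - 1‖) :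
    ∃ H : ℂ → ℝ, Integrable H ∧ (∀ y, 0 ≤ H y) ∧
      (∀ᵐ y : ℂ, Phi k d m lam (ν₁ * (2 * m) / lam) ζ y ≤ H y) ∧
      ∫ y, H y ≤ d * (2 * m) * (π / 2 - ν₁ * c1 / 2 +
        30000 * (d + (2 * m) ^ (1 / 4 : ℝ))) := by
  have hLk := hk.hL
  have hρ := hk.hρ
  have hc1 := hk.hc1
  have hπ := Real.pi_pos
  have hζ0 : 0 < ‖ζ‖ := norm_pos_iff.mpr hζ
  have hnu : ν₁ * (2 * m) / lam * lam / (2 * m) = ν₁ := by field_simp
  have hF1 := hk.F1 ζ hζ hg
  have hk2 : ∀ y, |k (y / ζ) - k y| ≤ 2 := by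
    intro y
    have h1 := abs_sub (k (y / ζ)) (k y)
    linarith [hk.bd (y / ζ), hk.bd y]
  have i0 : IntegrableOn (fun y => k (y / ζ)) Dk :=
    int_sub_Dk (g := fun _ => 0) (hk.meas.comp (measurable_id.div_const ζ)) fun y => hk.bd _
  have i1 : IntegrableOn k Dk := int_sub_Dk (g := fun _ => 0) hk.meas hk.bd
  have i2 : IntegrableOn (fun y => k ((y - ((2 * m : ℝ) : ℂ)) / ζ)) Dk :=
    int_sub_Dk (g := fun _ => 0)
      (hk.meas.comp ((measurable_id.sub_const _).div_const ζ)) fun y => hk.bd _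
  have hlip := lip_ze hk.lip (by positivity : 0 < 2 * m) ζ
  rcases le_or_gt 1 ‖ζ‖ with h1 | h1
  · -- bounded case
    have hz : ‖1 / ζ‖ ≤ 1 := by
      rw [norm_div, norm_one, div_le_one hζ0]
      exact h1
    have hb2 : ∀ y, |lam / (2 * m) * (k (y / ζ) - k ((y - ((2 * m : ℝ) : ℂ)) / ζ))| ≤
        lam * Lk := by
      intro y
      rw [abs_mul, abs_of_pos (by positivity : 0 < lam / (2 * m))]
      calc lam / (2 * m) * |k (y / ζ) - k ((y - ((2 * m : ℝ) : ℂ)) / ζ)|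
          ≤ lam / (2 * m) * (Lk * (2 * m * ‖1 / ζ‖)) :=
            mul_le_mul_of_nonneg_left (hlip y) (by positivity)
        _ = lam * Lk * ‖1 / ζ‖ := by field_simp
        _ ≤ lam * Lk * 1 := mul_le_mul_of_nonneg_left hz (by positivity)
        _ = _ := by ring
    have hb : ∀ y, |ν₁ * (2 * m) / lam * lam / (2 * m) * (k (y / ζ) - k y) +
        lam / (2 * m) * (k (y / ζ) - k ((y - ((2 * m : ℝ) : ℂ)) / ζ))| ≤ 4 * ν₁ := by
      intro y
      rw [hnu]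
      refine (abs_add_le _ _).trans ?_
      have h2 := hb2 y
      have h3 : |ν₁ * (k (y / ζ) - k y)| ≤ 2 * ν₁ := by
        rw [abs_mul, abs_of_pos hν]
        nlinarith [hk2 y]
      linarith
    have hI : ∫ y in Dk, (ν₁ * (2 * m) / lam * lam / (2 * m) * (k (y / ζ) - k y) +
        lam / (2 * m) * (k (y / ζ) - k ((y - ((2 * m : ℝ) : ℂ)) / ζ))) ≤
        -(ν₁ * c1) + lam * Lk * π := by
      have i01 : IntegrableOn (fun y => ν₁ * (k (y / ζ) - k y)) Dk := (i0.sub i1).const_mul _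
      have i02 : IntegrableOn (fun y => lam / (2 * m) *
          (k (y / ζ) - k ((y - ((2 * m : ℝ) : ℂ)) / ζ))) Dk := (i0.sub i2).const_mul _
      rw [hnu, integral_add i01 i02, integral_const_mul]
      have h2 : ν₁ * ∫ y in Dk, (k (y / ζ) - k y) ≤ ν₁ * -c1 :=
        mul_le_mul_of_nonneg_left hF1 hν.le
      have h3 : ∫ y in Dk, lam / (2 * m) * (k (y / ζ) - k ((y - ((2 * m : ℝ) : ℂ)) / ζ)) ≤
          ∫ y in Dk, lam * Lk := by
        refine integral_mono ((i0.sub i2).const_mul _)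
          (integrableOn_const (ne_top_of_le_ne_top vol_Bt (measure_mono Dk_sub))) fun y => ?_
        exact (le_abs_self _).trans (hb2 y)
      rw [setIntegral_const, smul_eq_mul, measureReal_def, vol_Dk] at h3
      linarith
    obtain ⟨H, g1, g2, g3, g4⟩ := case_bdd hk.meas hk.bd hd hd1 hm hm1 hl.le hl1 ζ (by positivity)
      (by linarith) hb hI
    refine ⟨H, g1, g2, g3, g4.trans ?_⟩
    refine mul_le_mul_of_nonneg_left ?_ (by positivity)
    have h5 : 10 * π * (4 * ν₁) ^ 2 = ν₁ / 4 * (640 * π * ν₁) := by ring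
    have h6 : ν₁ / 4 * (640 * π * ν₁) ≤ ν₁ / 4 * c1 := mul_le_mul_of_nonneg_left hνc (by positivity)
    linarith
  · -- small scale
    set S : Set ℂ := ball 0 (ρ * ‖ζ‖) ∪ ball ((2 * m : ℝ) : ℂ) (ρ * ‖ζ‖) with hS
    have hSm : MeasurableSet S := measurableSet_ball.union measurableSet_ball
    have hSv : volume S ≤ ENNReal.ofReal (π * (2 * ρ * ‖ζ‖) ^ 2) := by
      refine (measure_union_le _ _).trans ?_
      rw [Complex.volume_ball, Complex.volume_ball, ← ENNReal.ofReal_pow (by positivity),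
        ← ENNReal.ofReal_coe_nnreal, NNReal.coe_real_pi, ← ENNReal.ofReal_mul (by positivity),
        ← ENNReal.ofReal_add (by positivity) (by positivity)]
      refine ENNReal.ofReal_le_ofReal ?_
      nlinarith [mul_pos hπ (pow_pos (mul_pos hρ hζ0) 2)]
    have hSf : volume S ≠ ⊤ := ne_top_of_le_ne_top ENNReal.ofReal_ne_top hSv
    have hout : ∀ y, y ∉ S → k (y / ζ) - k ((y - ((2 * m : ℝ) : ℂ)) / ζ) = 0 := by
      intro y hy
      rw [hS, mem_union, not_or, mem_ball, mem_ball, dist_eq_norm, dist_eq_norm, not_lt, not_lt,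
        sub_zero] at hy
      rw [hk.far (y / ζ), hk.far ((y - ((2 * m : ℝ) : ℂ)) / ζ), sub_self]
      · rw [norm_div, le_div_iff₀ hζ0]
        exact hy.2
      · rw [norm_div, le_div_iff₀ hζ0]
        exact hy.1
    have iS : IntegrableOn (fun y : ℂ => ‖y - 0‖ ^ (-d)) S :=
      Helper39.G2.integrableOn_weight hd (by linarith) 0 hSf
    have hwS : ∫ y in S, ‖y - 0‖ ^ (-d) ≤ 2 * π / (2 - d) * (2 * ρ * ‖ζ‖) ^ (2 - d) := by
      have g1 := Helper39.G2.weight_le hd (by linarith : d < 2) 0 S (ρ := 2 * ρ * ‖ζ‖)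
        (by positivity) hSv
      rw [← Helper39.G2.ofReal_integral_weight hd (by linarith) 0 hSf] at g1
      have h3 : 0 < 2 - d := by linarith
      rwa [ENNReal.ofReal_le_ofReal_iff (by positivity)] at g1
    set c : ℂ → ℝ := fun y => |lam / (2 * m) * (k (y / ζ) - k ((y - ((2 * m : ℝ) : ℂ)) / ζ))| *
      ‖y - 0‖ ^ (-d) with hc
    have hcle : ∀ y, c y ≤ S.indicator (fun y => lam * Lk / ‖ζ‖ * ‖y - 0‖ ^ (-d)) y := by
      intro y
      by_cases hy : y ∈ S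
      · rw [indicator_of_mem hy]
        refine mul_le_mul_of_nonneg_right ?_ (Real.rpow_nonneg (norm_nonneg _) _)
        rw [abs_mul, abs_of_pos (by positivity : 0 < lam / (2 * m))]
        calc lam / (2 * m) * |k (y / ζ) - k ((y - ((2 * m : ℝ) : ℂ)) / ζ)|
            ≤ lam / (2 * m) * (Lk * (2 * m * ‖1 / ζ‖)) :=
              mul_le_mul_of_nonneg_left (hlip y) (by positivity)
          _ = lam * Lk / ‖ζ‖ := by
              rw [norm_div, norm_one]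
              field_simp
      · rw [indicator_of_notMem hy, hc]
        simp only [hout y hy, mul_zero, abs_zero, zero_mul, le_refl]
    have hc0 : ∀ y, 0 ≤ c y := fun y =>
      mul_nonneg (abs_nonneg _) (Real.rpow_nonneg (norm_nonneg _) _)
    have iS2 : IntegrableOn (fun y : ℂ => lam * Lk / ‖ζ‖ * ‖y - 0‖ ^ (-d)) S := iS.const_mul _
    have iM : Integrable (S.indicator fun y => lam * Lk / ‖ζ‖ * ‖y - 0‖ ^ (-d)) :=
      iS2.integrable_indicator hSm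
    have hcm : Measurable c := by
      have hkm := hk.meas
      simp only [hc]
      fun_prop
    have ic : Integrable c := by
      refine Integrable.mono' iM hcm.aestronglyMeasurable
        (Filter.Eventually.of_forall fun y => ?_)
      rw [Real.norm_eq_abs, abs_of_nonneg (hc0 y)]
      exact hcle y
    have hcK : ∫ y, c y ≤ ν₁ * c1 / 4 := by
      have g1 : ∫ y, c y ≤ ∫ y, S.indicator (fun y => lam * Lk / ‖ζ‖ * ‖y - 0‖ ^ (-d)) y :=
        integral_mono ic iM hcle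
      rw [integral_indicator hSm, integral_const_mul] at g1
      have g2 : 2 * π / (2 - d) * (2 * ρ * ‖ζ‖) ^ (2 - d) ≤
          4 * π * ((1 + 2 * ρ) ^ 2 * ‖ζ‖) := by
        have g3 : 2 * π / (2 - d) ≤ 4 * π := by
          rw [div_le_iff₀ (by linarith)]
          nlinarith
        have g4 : (2 * ρ * ‖ζ‖) ^ (2 - d) ≤ (1 + 2 * ρ) ^ 2 * ‖ζ‖ := by
          rw [Real.mul_rpow (by positivity) hζ0.le]
          refine mul_le_mul ?_ ?_ (by positivity) (by positivity)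
          · calc (2 * ρ) ^ (2 - d) ≤ (1 + 2 * ρ) ^ (2 - d) :=
                  Real.rpow_le_rpow (by positivity) (by linarith) (by linarith)
              _ ≤ (1 + 2 * ρ) ^ (2 : ℝ) :=
                  Real.rpow_le_rpow_of_exponent_le (by linarith) (by linarith)
              _ = (1 + 2 * ρ) ^ 2 := by norm_num
          · calc ‖ζ‖ ^ (2 - d) ≤ ‖ζ‖ ^ (1 : ℝ) :=
                  Real.rpow_le_rpow_of_exponent_ge hζ0 h1.le (by linarith)
              _ = ‖ζ‖ := Real.rpow_one _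
        have g5 : 0 ≤ (2 * ρ * ‖ζ‖) ^ (2 - d) := by positivity
        exact mul_le_mul g3 g4 g5 (by positivity)
      calc ∫ y, c y ≤ lam * Lk / ‖ζ‖ * ∫ y in S, ‖y - 0‖ ^ (-d) := g1
        _ ≤ lam * Lk / ‖ζ‖ * (4 * π * ((1 + 2 * ρ) ^ 2 * ‖ζ‖)) :=
            mul_le_mul_of_nonneg_left (hwS.trans g2) (by positivity)
        _ = 16 * π * (lam * Lk * (1 + 2 * ρ) ^ 2) / 4 := by
            field_simp
            ring
        _ ≤ _ := by linarith
    have hbm : Measurable fun y : ℂ => ν₁ * (k (y / ζ) - k y) := by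
      have hkm := hk.meas
      fun_prop
    obtain ⟨H, g1, g2, g3, g4⟩ := bound_H (lam := lam) hd hd1 (by positivity : 0 < 2 * m) hm1 hl.le
      hl1 hbm (ν := 2 * ν₁) (by positivity) (by linarith) (fun y => by
        rw [abs_mul, abs_of_pos hν]
        nlinarith [hk2 y]) ic hc0 hcK
    refine ⟨fun y => d * (2 * m) * H y, g1.const_mul _, fun y => mul_nonneg (by positivity) (g2 y),
      ?_, ?_⟩
    · filter_upwards [g3] with y hy
      refine (Phi_le hk.bd hd (by linarith) hm hl.le hl1 ζ y).trans ?_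
      refine mul_le_mul_of_nonneg_left (le_trans ?_ hy) (by positivity)
      have h5 : lam / (2 * m) * (k (y / ζ) - k ((y - ((2 * m : ℝ) : ℂ)) / ζ)) * ‖y‖ ^ (-d) ≤
          c y := by
        show _ ≤ |lam / (2 * m) * (k (y / ζ) - k ((y - ((2 * m : ℝ) : ℂ)) / ζ))| *
          ‖y - 0‖ ^ (-d)
        rw [sub_zero]
        exact mul_le_mul_of_nonneg_right (le_abs_self _) (Real.rpow_nonneg (norm_nonneg _) _)
      rw [hnu]
      linarith
    · rw [integral_const_mul]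
      refine mul_le_mul_of_nonneg_left (g4.trans ?_) (by positivity)
      rw [integral_const_mul]
      have h2 : ν₁ * ∫ y in Dk, (k (y / ζ) - k y) ≤ ν₁ * -c1 :=
        mul_le_mul_of_nonneg_left hF1 hν.le
      have h5 : 10 * π * (2 * ν₁) ^ 2 = ν₁ / 16 * (640 * π * ν₁) := by ring
      have h6 : ν₁ / 16 * (640 * π * ν₁) ≤ ν₁ / 16 * c1 :=
        mul_le_mul_of_nonneg_left hνc (by positivity)
      nlinarith [mul_pos hν hc1]

/-- the key inequality; `nu` is bounded independently of `ζ` -/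
theorem key {k : ℂ → ℝ} {Lk ρ kinf c1 c2 e2 m1 : ℝ} (hk : Tm k Lk ρ kinf c1 c2 e2 m1) :
    ∃ lam c0 m0 d0 B : ℝ, 0 < lam ∧ lam ≤ 1 ∧ 0 < c0 ∧ c0 ≤ 1 / 2 ∧ 0 < m0 ∧ m0 ≤ 1 ∧ 0 < d0 ∧
      d0 ≤ 1 / 4 ∧ 0 < B ∧ ∀ d : ℝ, 0 < d → d ≤ d0 → ∀ m : ℝ, 0 < m → m ≤ m0 → ∀ ζ : ℂ, ζ ≠ 0 →
      ∃ nu : ℝ, 0 ≤ nu ∧ nu ≤ B ∧ ∃ H : ℂ → ℝ, Integrable H ∧ (∀ y, 0 ≤ H y) ∧
        (∀ᵐ y : ℂ, Phi k d m lam nu ζ y ≤ H y) ∧
        ∫ y, H y ≤ (1 - c0) * (d * π * m * 2 ^ (-d)) := by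
  have hLk := hk.hL
  have hρ := hk.hρ
  have hc1 := hk.hc1
  have hc2 := hk.hc2
  have hm1 := hk.hm1
  have hπ := Real.pi_pos
  have hπ4 := Real.pi_lt_d2
  obtain ⟨ν₁, hν, hν1, hνc⟩ : ∃ ν₁ : ℝ, 0 < ν₁ ∧ ν₁ ≤ 1 / 32 ∧ 640 * π * ν₁ ≤ c1 := by
    refine ⟨min (1 / 32) (c1 / (640 * π)), by positivity, min_le_left _ _, ?_⟩
    calc 640 * π * min (1 / 32) (c1 / (640 * π)) ≤ 640 * π * (c1 / (640 * π)) :=
          mul_le_mul_of_nonneg_left (min_le_right _ _) (by positivity)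
      _ = c1 := by field_simp
  have hν1c : 0 < ν₁ * c1 := by positivity
  -- the constant `lam`
  set T : ℝ := 1 + 12 * Lk + 90 * π * Lk ^ 2 / c2 + Lk / (2 * ν₁) + 4 * π * Lk / (ν₁ * c1) +
    16 * π * (Lk * (1 + 2 * ρ) ^ 2) / (ν₁ * c1) with hT
  have t1 : 0 < 12 * Lk := by positivity
  have t2 : 0 < 90 * π * Lk ^ 2 / c2 := by positivity
  have t3 : 0 < Lk / (2 * ν₁) := by positivity
  have t4 : 0 < 4 * π * Lk / (ν₁ * c1) := by positivity
  have t5 : 0 < 16 * π * (Lk * (1 + 2 * ρ) ^ 2) / (ν₁ * c1) := by positivity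
  have hT0 : 0 < T := by linarith
  have hx : ∀ x y : ℝ, 0 < y → x / y ≤ T → 1 / T * x ≤ y := by
    intro x y hy h
    rw [one_div, inv_mul_le_iff₀ hT0, mul_comm T y, ← div_le_iff₀' hy]
    exact h
  set lam : ℝ := 1 / T with hlam
  have hl : 0 < lam := by positivity
  have hl1 : lam ≤ 1 := by
    rw [hlam, div_le_one hT0]
    linarith
  have l1 : lam * Lk ≤ 1 / 12 := by
    have := hx (12 * Lk) 1 one_pos (by rw [div_one]; linarith)
    linarith
  have l2 : 90 * π * (lam * Lk ^ 2) ≤ c2 := by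
    have := hx (90 * π * Lk ^ 2) c2 hc2 (by linarith)
    linarith
  have l3 : lam * Lk ≤ 2 * ν₁ := hx Lk (2 * ν₁) (by positivity) (by linarith)
  have l4 : 4 * π * (lam * Lk) ≤ ν₁ * c1 := by
    have := hx (4 * π * Lk) (ν₁ * c1) hν1c (by linarith)
    linarith
  have l5 : 16 * π * (lam * Lk * (1 + 2 * ρ) ^ 2) ≤ ν₁ * c1 := by
    have := hx (16 * π * (Lk * (1 + 2 * ρ) ^ 2)) (ν₁ * c1) hν1c (by linarith)
    linarith
  -- the gain
  obtain ⟨g, hg, hg1, hg2, hg3⟩ : ∃ g : ℝ, 0 < g ∧ g ≤ 1 ∧ g ≤ lam * c2 / 4 ∧ g ≤ ν₁ * c1 / 2 :=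
    ⟨min 1 (min (lam * c2 / 4) (ν₁ * c1 / 2)), by positivity, min_le_left _ _,
      (min_le_right _ _).trans (min_le_left _ _), (min_le_right _ _).trans (min_le_right _ _)⟩
  set u : ℝ := g / 120000 with hu
  have hu0 : 0 < u := by positivity
  have hu1 : u ≤ 1 / 120000 := by
    rw [hu]
    linarith
  obtain ⟨m0, hm0, hm01, hm02, hm03, hm04⟩ : ∃ m0 : ℝ, 0 < m0 ∧ m0 ≤ 1 ∧ m0 ≤ m1 ∧
      2 * m0 ≤ 1 / 3 ∧ 2 * m0 ≤ u ^ 4 := by
    refine ⟨min (1 / 6) (min m1 (u ^ 4 / 2)), by positivity, ?_, ?_, ?_, ?_⟩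
    · exact (min_le_left _ _).trans (by norm_num)
    · exact (min_le_right _ _).trans (min_le_left _ _)
    · have := min_le_left (1 / 6) (min m1 (u ^ 4 / 2))
      linarith
    · have := (min_le_right (1 / 6) (min m1 (u ^ 4 / 2))).trans (min_le_right _ _)
      linarith
  refine ⟨lam, g / 4, m0, g / 120010, ν₁ * 2 / lam, hl, hl1, by positivity, by linarith, hm0, hm01,
    by positivity, by linarith, by positivity, ?_⟩
  intro d hd hd0 m hm hmm ζ hζ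
  have hd10 : d ≤ 1 / 10 := by linarith
  have hs4 : (2 * m) ^ (1 / 4 : ℝ) ≤ u := by
    calc (2 * m) ^ (1 / 4 : ℝ) ≤ (u ^ 4) ^ (1 / 4 : ℝ) :=
          Real.rpow_le_rpow (by positivity) (by linarith) (by norm_num)
      _ = u := by
          rw [← Real.rpow_natCast, ← Real.rpow_mul hu0.le]
          norm_num
  have h2d : 1 - d ≤ (2 : ℝ) ^ (-d) := by
    have h1 := Real.add_one_le_exp (Real.log 2 * (-d))
    rw [← Real.rpow_def_of_pos (by norm_num : (0 : ℝ) < 2)] at h1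
    have h2 : Real.log 2 ≤ 1 := by
      have := Real.log_le_sub_one_of_pos (by norm_num : (0 : ℝ) < 2)
      linarith
    nlinarith
  have hfin : ∀ G : ℝ, g ≤ G → d * (2 * m) * (π / 2 - G +
      30000 * (d + (2 * m) ^ (1 / 4 : ℝ))) ≤ (1 - g / 4) * (d * π * m * 2 ^ (-d)) := by
    intro G hG
    have e1 : (1 - g / 4) * (d * π * m * 2 ^ (-d)) =
        d * (2 * m) * ((1 - g / 4) * (π / 2) * 2 ^ (-d)) := by ring
    rw [e1]
    refine mul_le_mul_of_nonneg_left ?_ (by positivity)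
    have e2 : (1 - g / 4) * (π / 2) * (1 - d) ≤ (1 - g / 4) * (π / 2) * 2 ^ (-d) := by
      refine mul_le_mul_of_nonneg_left h2d ?_
      have : 0 < 1 - g / 4 := by linarith
      positivity
    have e3 : (1 - g / 4) * (π / 2) * (1 - d) ≥ π / 2 - (π / 8) * g - (π / 2) * d := by
      nlinarith [mul_pos hg hd, mul_pos hπ (mul_pos hg hd)]
    have e4 : (π / 8) * g ≤ 0.4 * g := by nlinarith
    have e5 : (π / 2) * d ≤ 1.6 * d := by nlinarith
    have e6 : 30000 * (2 * m) ^ (1 / 4 : ℝ) ≤ g / 4 := by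
      rw [hu] at hs4
      linarith
    nlinarith
  rcases le_total ‖1 / ζ - 1‖ e2 with h | h
  · obtain ⟨H, g1, g2', g3', g4⟩ := case_good hk hd hd10 hm (by linarith) (by linarith) hl hl1 l1 l2
      hζ h
    exact ⟨0, le_rfl, by positivity, H, g1, g2', g3', g4.trans (hfin _ hg2)⟩
  · obtain ⟨H, g1, g2', g3', g4⟩ := case_bad hk hd hd10 hm (by linarith) hl hl1 hν hν1 hνc l3 l4 l5
      hζ h
    refine ⟨ν₁ * (2 * m) / lam, by positivity, ?_, H, g1, g2', g3', g4.trans (hfin _ hg3)⟩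
    refine div_le_div_of_nonneg_right ?_ hl.le
    refine mul_le_mul_of_nonneg_left ?_ hν.le
    linarith

end Pool.Agent.Helper17.G3
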