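import Pool.Agent.Helper17.G3.Plane

/-!
# G3: the difference quotient of the weight is near the kernel
-/

set_option autoImplicit false
set_option linter.unusedVariables false

namespace Pool.Agent.Helper17.G3

open MeasureTheory Set Metric
open scoped Real

/-- the difference quotient -/
noncomputable def qq (d s : ℝ) (w : ℂ) : ℝ := (‖w - s‖ ^ (-d) - ‖w‖ ^ (-d)) / (d * s)

theorem rpow_sub_one {d y : ℝ} (hd : 0 < d) (hd1 : d ≤ 1 / 4) (hy : 0 < y) (hy1 : y ≤ 11) :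
    |y ^ (-d) - 1| ≤ 40 * d * y ^ (-(1 / 2) : ℝ) := by
  rcases le_total y 1 with h | h
  · have h1 : 1 ≤ y ^ (-d) := Real.one_le_rpow_of_pos_of_le_one_of_nonpos hy h (by linarith)
    rw [abs_of_nonneg (by linarith)]
    have hlog : Real.log y ≤ 0 := Real.log_nonpos hy.le h
    have h2 : y ^ (-d) - 1 ≤ (-(d * Real.log y)) * y ^ (-d) := by
      have h3 := Real.add_one_le_exp (d * Real.log y)
      have h4 : y ^ (-d) = Real.exp (-(d * Real.log y)) := by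
        rw [Real.rpow_def_of_pos hy]
        congr 1
        ring
      have h5 : Real.exp (d * Real.log y) * y ^ (-d) = 1 := by
        rw [h4, ← Real.exp_add]
        simp
      have h6 : 0 < y ^ (-d) := by linarith
      nlinarith
    have h7 : y ^ (-d) ≤ y ^ (-(1 / 4) : ℝ) :=
      Real.rpow_le_rpow_of_exponent_ge hy h (by linarith)
    have h8 : -Real.log y ≤ 4 * y ^ (-(1 / 4) : ℝ) := by
      have h9 := Real.add_one_le_exp (-(1 / 4) * Real.log y)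
      rw [Real.rpow_def_of_pos hy, mul_comm (Real.log y)]
      linarith
    have h10 : y ^ (-(1 / 4) : ℝ) * y ^ (-(1 / 4) : ℝ) = y ^ (-(1 / 2) : ℝ) := by
      rw [← Real.rpow_add hy]
      norm_num
    have h11 : 0 < y ^ (-(1 / 4) : ℝ) := Real.rpow_pos_of_pos hy _
    calc y ^ (-d) - 1 ≤ d * (-Real.log y) * y ^ (-d) := by linarith
      _ ≤ d * (4 * y ^ (-(1 / 4) : ℝ)) * y ^ (-(1 / 4) : ℝ) := by
          refine mul_le_mul ?_ h7 (by linarith) (by positivity)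
          exact mul_le_mul_of_nonneg_left h8 hd.le
      _ = 4 * d * y ^ (-(1 / 2) : ℝ) := by rw [← h10]; ring
      _ ≤ _ := by
          have := Real.rpow_pos_of_pos hy (-(1 / 2) : ℝ)
          nlinarith
  · have h1 : y ^ (-d) ≤ 1 := Real.rpow_le_one_of_one_le_of_nonpos h (by linarith)
    rw [abs_of_nonpos (by linarith)]
    have hlog : 0 ≤ Real.log y := Real.log_nonneg h
    have h2 : 1 - y ^ (-d) ≤ d * Real.log y := by
      have h3 := Real.add_one_le_exp (-(d * Real.log y))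
      have h4 : y ^ (-d) = Real.exp (-(d * Real.log y)) := by
        rw [Real.rpow_def_of_pos hy]
        congr 1
        ring
      rw [h4]
      linarith
    have h5 : Real.log y ≤ 10 := by
      have := Real.log_le_sub_one_of_pos hy
      linarith
    have h6 : 1 / 4 ≤ y ^ (-(1 / 2) : ℝ) := by
      have h7 : (16 : ℝ) ^ (-(1 / 2) : ℝ) ≤ y ^ (-(1 / 2) : ℝ) :=
        Real.rpow_le_rpow_of_nonpos hy (by linarith) (by norm_num)
      have h8 : (16 : ℝ) ^ (-(1 / 2) : ℝ) = 1 / 4 := by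
        rw [show (16 : ℝ) = 4 ^ (2 : ℝ) by norm_num, ← Real.rpow_mul (by norm_num)]
        norm_num
      linarith
    nlinarith

theorem hk_sub {w z : ℂ} (hw : w ≠ 0) (hz : z ≠ 0) :
    |hk z - hk w| ≤ ‖z - w‖ / (‖z‖ * ‖w‖) := by
  have h1 : ∀ u : ℂ, hk u = (u⁻¹).re := by
    intro u
    rw [hk, Complex.inv_re, Complex.normSq_eq_norm_sq]
  rw [h1, h1, ← Complex.sub_re]
  refine (Complex.abs_re_le_norm _).trans (le_of_eq ?_)
  rw [inv_sub_inv hz hw, norm_div, norm_mul, norm_sub_rev]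

/-- mean value theorem -/
theorem qq_mvt {d s : ℝ} (hd : 0 < d) (hs : 0 < s) {w : ℂ} (hw : s < ‖w‖) :
    ∃ c : ℝ, 0 < c ∧ c < s ∧ qq d s w = hk (w - c) * ‖w - c‖ ^ (-d) := by
  have hN : ∀ t : ℝ, ‖w - t‖ ^ 2 = (w.re - t) ^ 2 + w.im ^ 2 := by
    intro t
    rw [Complex.sq_norm, Complex.normSq_apply]
    simp only [Complex.sub_re, Complex.sub_im, Complex.ofReal_re, Complex.ofReal_im, sub_zero]
    ring
  have hpos : ∀ t : ℝ, 0 ≤ t → t ≤ s → 0 < ‖w - t‖ := by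
    intro t h0 h1
    have h2 := norm_sub_norm_le w (t : ℂ)
    rw [Complex.norm_real, Real.norm_eq_abs, abs_of_nonneg h0] at h2
    linarith
  have hrep : ∀ t : ℝ, ‖w - t‖ ^ (-d) = ((w.re - t) ^ 2 + w.im ^ 2) ^ (-d / 2) := by
    intro t
    rw [← hN, ← Real.rpow_natCast, ← Real.rpow_mul (norm_nonneg _)]
    congr 1
    push_cast
    ring
  have hder : ∀ t : ℝ, 0 ≤ t → t ≤ s → HasDerivAt (fun t : ℝ => ‖w - t‖ ^ (-d))
      (-(2 * (w.re - t)) * (-d / 2) * ((w.re - t) ^ 2 + w.im ^ 2) ^ (-d / 2 - 1)) t := by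
    intro t h0 h1
    have h2 : HasDerivAt (fun t : ℝ => (w.re - t) ^ 2 + w.im ^ 2) (-(2 * (w.re - t))) t := by
      have h3 := (((hasDerivAt_id t).const_sub w.re).pow 2).add_const (w.im ^ 2)
      refine h3.congr_deriv ?_
      simp
    have h4 : (w.re - t) ^ 2 + w.im ^ 2 ≠ 0 := by
      rw [← hN]
      have := hpos t h0 h1
      positivity
    have h5 := h2.rpow_const (p := -d / 2) (Or.inl h4)
    exact h5.congr_of_eventuallyEq (Filter.Eventually.of_forall fun t => hrep t)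
  obtain ⟨c, hc, hc2⟩ := exists_hasDerivAt_eq_slope (fun t : ℝ => ‖w - t‖ ^ (-d)) _ hs
    (fun t ht => (hder t ht.1 ht.2).continuousAt.continuousWithinAt)
    (fun t ht => hder t ht.1.le ht.2.le)
  refine ⟨c, hc.1, hc.2, ?_⟩
  have hz := hpos c hc.1.le hc.2.le
  have h1 : qq d s w = (‖w - s‖ ^ (-d) - ‖w - ((0 : ℝ) : ℂ)‖ ^ (-d)) / (s - 0) / d := by
    rw [qq, Complex.ofReal_zero, sub_zero, sub_zero, div_div, mul_comm d]
  rw [h1, ← hc2, ← hN]
  have h2 : (‖w - c‖ ^ 2) ^ (-d / 2 - 1) = ‖w - c‖ ^ (-d) / ‖w - c‖ ^ 2 := by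
    rw [← Real.rpow_natCast, ← Real.rpow_mul hz.le, ← Real.rpow_sub hz]
    congr 1
    push_cast
    ring
  rw [h2, hk]
  simp only [Complex.sub_re, Complex.ofReal_re]
  field_simp

theorem rpow_sub_le {d x y : ℝ} (hd : 0 < d) (hd1 : d ≤ 1 / 4) (hx : 0 < x) (hx1 : x ≤ 1)
    (hxy : x ≤ y) :
    x ^ (-d) - y ^ (-d) ≤ 2 * d * x ^ (-(3 / 4) : ℝ) * y ^ (1 / 2 : ℝ) := by
  have hy : 0 < y := hx.trans_le hxy
  have h1 : y ^ (-d) = x ^ (-d) * Real.exp (-(d * Real.log (y / x))) := by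
    rw [Real.log_div hy.ne' hx.ne', Real.rpow_def_of_pos hx, Real.rpow_def_of_pos hy,
      ← Real.exp_add]
    congr 1
    ring
  have h2 := Real.add_one_le_exp (-(d * Real.log (y / x)))
  have h3 : 0 < x ^ (-d) := Real.rpow_pos_of_pos hx _
  have h4 : x ^ (-d) - y ^ (-d) ≤ x ^ (-d) * (d * Real.log (y / x)) := by
    rw [h1]
    nlinarith
  have h5 : Real.log (y / x) ≤ 2 * (y / x) ^ (1 / 2 : ℝ) := by
    have h6 := Real.add_one_le_exp (1 / 2 * Real.log (y / x))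
    rw [Real.rpow_def_of_pos (by positivity), mul_comm (Real.log (y / x))]
    linarith
  have h7 : x ^ (-d) ≤ x ^ (-(1 / 4) : ℝ) :=
    Real.rpow_le_rpow_of_exponent_ge hx hx1 (by linarith)
  have h8 : 0 < (y / x) ^ (1 / 2 : ℝ) := by positivity
  calc x ^ (-d) - y ^ (-d) ≤ x ^ (-d) * (d * Real.log (y / x)) := h4
    _ ≤ x ^ (-d) * (d * (2 * (y / x) ^ (1 / 2 : ℝ))) := by
        refine mul_le_mul_of_nonneg_left ?_ h3.le
        exact mul_le_mul_of_nonneg_left h5 hd.le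
    _ ≤ x ^ (-(1 / 4) : ℝ) * (d * (2 * (y / x) ^ (1 / 2 : ℝ))) := by
        refine mul_le_mul_of_nonneg_right h7 (by positivity)
    _ = 2 * d * x ^ (-(3 / 4) : ℝ) * y ^ (1 / 2 : ℝ) := by
        rw [Real.div_rpow hy.le hx.le]
        have h9 : x ^ (-(1 / 4) : ℝ) = x ^ (-(3 / 4) : ℝ) * x ^ (1 / 2 : ℝ) := by
          rw [← Real.rpow_add hx]
          norm_num
        rw [h9]
        have h10 : 0 < x ^ (1 / 2 : ℝ) := Real.rpow_pos_of_pos hx _
        field_simp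

theorem qq_near {d s : ℝ} (hd : 0 < d) (hd1 : d ≤ 1 / 4) (hs : 0 < s) (hs1 : s ≤ 1 / 3) {w : ℂ}
    (hw : w ≠ 0) (hws : w ≠ s) (hB : w ∈ Bt) :
    |qq d s w - hk w| ≤
      (120 * d + 10 * s ^ (1 / 4 : ℝ)) * (‖w‖ ^ (-(3 / 2) : ℝ) + ‖w - s‖ ^ (-(3 / 2) : ℝ)) := by
  have ha : 0 < ‖w‖ := norm_pos_iff.mpr hw
  have hb : 0 < ‖w - s‖ := norm_pos_iff.mpr (sub_ne_zero.mpr hws)
  have hA : 0 < ‖w‖ ^ (-(3 / 2) : ℝ) := Real.rpow_pos_of_pos ha _
  have hBp : 0 < ‖w - s‖ ^ (-(3 / 2) : ℝ) := Real.rpow_pos_of_pos hb _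
  have hs4 : 0 < s ^ (1 / 4 : ℝ) := Real.rpow_pos_of_pos hs _
  have hs24 : s ^ (1 / 2 : ℝ) ≤ s ^ (1 / 4 : ℝ) :=
    Real.rpow_le_rpow_of_exponent_ge hs (by linarith) (by norm_num)
  have hw10 : ‖w‖ ≤ 10 := by
    rwa [Bt, mem_closedBall, dist_zero_right] at hB
  rcases le_or_gt (2 * s) ‖w‖ with h | h
  · obtain ⟨c, hc0, hc1, hq⟩ := qq_mvt hd hs (w := w) (by linarith)
    set z : ℂ := w - c with hz
    have hzw : ‖z - w‖ = c := by
      rw [hz, sub_sub_cancel_left, norm_neg, Complex.norm_real, Real.norm_eq_abs, abs_of_pos hc0]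
    have hz2 : ‖w‖ / 2 ≤ ‖z‖ := by
      have h2 := norm_sub_norm_le w (c : ℂ)
      rw [Complex.norm_real, Real.norm_eq_abs, abs_of_nonneg hc0.le] at h2
      linarith
    have hz11 : ‖z‖ ≤ 11 := by
      have h2 := norm_sub_le w (c : ℂ)
      rw [Complex.norm_real, Real.norm_eq_abs, abs_of_nonneg hc0.le] at h2
      linarith
    have hz0 : 0 < ‖z‖ := by linarith
    have hzne : z ≠ 0 := norm_pos_iff.mp hz0
    have e1 : |qq d s w - hk w| ≤ |hk z| * |‖z‖ ^ (-d) - 1| + |hk z - hk w| := by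
      rw [hq, ← abs_mul]
      have : hk z * ‖z‖ ^ (-d) - hk w = hk z * (‖z‖ ^ (-d) - 1) + (hk z - hk w) := by ring
      rw [this]
      exact abs_add_le _ _
    have e2 : |hk z| * |‖z‖ ^ (-d) - 1| ≤ 120 * d * ‖w‖ ^ (-(3 / 2) : ℝ) := by
      calc |hk z| * |‖z‖ ^ (-d) - 1| ≤ ‖z‖ ^ (-1 : ℝ) * (40 * d * ‖z‖ ^ (-(1 / 2) : ℝ)) :=
            mul_le_mul (abs_hk_le z) (rpow_sub_one hd hd1 hz0 hz11) (abs_nonneg _)
              (Real.rpow_nonneg hz0.le _)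
        _ = 40 * d * ‖z‖ ^ (-(3 / 2) : ℝ) := by
            have : ‖z‖ ^ (-(3 / 2) : ℝ) = ‖z‖ ^ (-1 : ℝ) * ‖z‖ ^ (-(1 / 2) : ℝ) := by
              rw [← Real.rpow_add hz0]
              norm_num
            rw [this]
            ring
        _ ≤ 40 * d * (‖w‖ / 2) ^ (-(3 / 2) : ℝ) := by
            refine mul_le_mul_of_nonneg_left ?_ (by positivity)
            exact Real.rpow_le_rpow_of_nonpos (by positivity) hz2 (by norm_num)
        _ ≤ 40 * d * (3 * ‖w‖ ^ (-(3 / 2) : ℝ)) := by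
            refine mul_le_mul_of_nonneg_left ?_ (by positivity)
            rw [Real.div_rpow ha.le (by norm_num), div_le_iff₀ (by positivity)]
            have h3 : (1 / 3 : ℝ) ≤ (2 : ℝ) ^ (-(3 / 2) : ℝ) := by
              rw [Real.rpow_neg (by norm_num), one_div]
              refine inv_anti₀ (by positivity) ?_
              have h4 : ((2 : ℝ) ^ (3 / 2 : ℝ)) ^ 2 ≤ 3 ^ 2 := by
                rw [← Real.rpow_natCast, ← Real.rpow_mul (by norm_num)]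
                norm_num
              exact le_of_sq_le_sq h4 (by norm_num)
            nlinarith
        _ = 120 * d * ‖w‖ ^ (-(3 / 2) : ℝ) := by ring
    have e3 : |hk z - hk w| ≤ 2 * s ^ (1 / 4 : ℝ) * ‖w‖ ^ (-(3 / 2) : ℝ) := by
      refine (hk_sub hw hzne).trans ?_
      rw [hzw, div_le_iff₀ (by positivity)]
      have h3 : ‖w‖ ^ (-(3 / 2) : ℝ) * ‖w‖ = ‖w‖ ^ (-(1 / 2) : ℝ) := by
        nth_rewrite 2 [← Real.rpow_one ‖w‖]
        rw [← Real.rpow_add ha]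
        norm_num
      have h4 : ‖w‖ ^ (-(1 / 2) : ℝ) * ‖w‖ = ‖w‖ ^ (1 / 2 : ℝ) := by
        nth_rewrite 2 [← Real.rpow_one ‖w‖]
        rw [← Real.rpow_add ha]
        norm_num
      have h5 : s ^ (1 / 2 : ℝ) ≤ ‖w‖ ^ (1 / 2 : ℝ) :=
        Real.rpow_le_rpow hs.le (by linarith) (by norm_num)
      have h6 : s ^ (1 / 2 : ℝ) * s ^ (1 / 2 : ℝ) = s := by
        rw [← Real.rpow_add hs]
        norm_num
      have h7 : 0 < s ^ (1 / 2 : ℝ) := Real.rpow_pos_of_pos hs _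
      calc c ≤ s := hc1.le
        _ = s ^ (1 / 2 : ℝ) * s ^ (1 / 2 : ℝ) := h6.symm
        _ ≤ s ^ (1 / 4 : ℝ) * ‖w‖ ^ (1 / 2 : ℝ) := mul_le_mul hs24 h5 h7.le hs4.le
        _ = s ^ (1 / 4 : ℝ) * (‖w‖ ^ (-(3 / 2) : ℝ) * ‖w‖ * ‖w‖) := by rw [h3, h4]
        _ = 2 * s ^ (1 / 4 : ℝ) * ‖w‖ ^ (-(3 / 2) : ℝ) * (‖w‖ / 2 * ‖w‖) := by ring
        _ ≤ 2 * s ^ (1 / 4 : ℝ) * ‖w‖ ^ (-(3 / 2) : ℝ) * (‖z‖ * ‖w‖) := by
            refine mul_le_mul_of_nonneg_left ?_ (by positivity)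
            exact mul_le_mul_of_nonneg_right hz2 ha.le
    nlinarith
  · have hb3 : ‖w - s‖ ≤ 3 * s := by
      have h2 := norm_sub_le w (s : ℂ)
      rw [Complex.norm_real, Real.norm_eq_abs, abs_of_nonneg hs.le] at h2
      linarith
    have e1 : |hk w| ≤ 2 * s ^ (1 / 4 : ℝ) * ‖w‖ ^ (-(3 / 2) : ℝ) := by
      refine (abs_hk_le w).trans ?_
      have h3 : ‖w‖ ^ (-1 : ℝ) = ‖w‖ ^ (1 / 2 : ℝ) * ‖w‖ ^ (-(3 / 2) : ℝ) := by
        rw [← Real.rpow_add ha]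
        norm_num
      rw [h3]
      refine mul_le_mul_of_nonneg_right ?_ hA.le
      calc ‖w‖ ^ (1 / 2 : ℝ) ≤ (4 * s) ^ (1 / 2 : ℝ) :=
            Real.rpow_le_rpow ha.le (by linarith) (by norm_num)
        _ = 2 * s ^ (1 / 2 : ℝ) := by
            rw [Real.mul_rpow (by norm_num) hs.le]
            congr 1
            rw [show (4 : ℝ) = 2 ^ (2 : ℝ) by norm_num, ← Real.rpow_mul (by norm_num)]
            norm_num
        _ ≤ 2 * s ^ (1 / 4 : ℝ) := by linarith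
    have key : ∀ x y : ℝ, 0 < x → x ≤ y → y ≤ 3 * s →
        (x ^ (-d) - y ^ (-d)) / (d * s) ≤ 8 * s ^ (1 / 4 : ℝ) * x ^ (-(3 / 2) : ℝ) := by
      intro x y hx hxy hy
      have h1 := rpow_sub_le hd hd1 hx (by linarith) hxy
      have hy0 : 0 < y := hx.trans_le hxy
      rw [div_le_iff₀ (by positivity)]
      refine h1.trans ?_
      have h2 : x ^ (-(3 / 4) : ℝ) = x ^ (3 / 4 : ℝ) * x ^ (-(3 / 2) : ℝ) := by
        rw [← Real.rpow_add hx]
        norm_num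
      have h3 : x ^ (3 / 4 : ℝ) ≤ (3 * s) ^ (3 / 4 : ℝ) :=
        Real.rpow_le_rpow hx.le (by linarith) (by norm_num)
      have h4 : y ^ (1 / 2 : ℝ) ≤ (3 * s) ^ (1 / 2 : ℝ) :=
        Real.rpow_le_rpow hy0.le hy (by norm_num)
      have h5 : (3 * s) ^ (3 / 4 : ℝ) * (3 * s) ^ (1 / 2 : ℝ) ≤ 4 * (s ^ (1 / 4 : ℝ) * s) := by
        rw [← Real.rpow_add (by positivity), Real.mul_rpow (by norm_num) hs.le]
        have h6 : s ^ ((3 / 4 : ℝ) + 1 / 2) = s ^ (1 / 4 : ℝ) * s := by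
          nth_rewrite 3 [← Real.rpow_one s]
          rw [← Real.rpow_add hs]
          norm_num
        rw [h6]
        refine mul_le_mul_of_nonneg_right ?_ (by positivity)
        have h7 : ((3 : ℝ) ^ ((3 / 4 : ℝ) + 1 / 2)) ^ 4 ≤ 4 ^ 4 := by
          rw [← Real.rpow_natCast, ← Real.rpow_mul (by norm_num)]
          norm_num
        exact le_of_pow_le_pow_left₀ (by norm_num) (by norm_num) h7
      have h8 : 0 < x ^ (-(3 / 2) : ℝ) := Real.rpow_pos_of_pos hx _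
      rw [h2]
      calc 2 * d * (x ^ (3 / 4 : ℝ) * x ^ (-(3 / 2) : ℝ)) * y ^ (1 / 2 : ℝ)
          = 2 * d * x ^ (-(3 / 2) : ℝ) * (x ^ (3 / 4 : ℝ) * y ^ (1 / 2 : ℝ)) := by ring
        _ ≤ 2 * d * x ^ (-(3 / 2) : ℝ) * ((3 * s) ^ (3 / 4 : ℝ) * (3 * s) ^ (1 / 2 : ℝ)) := by
            refine mul_le_mul_of_nonneg_left ?_ (by positivity)
            exact mul_le_mul h3 h4 (by positivity) (by positivity)
        _ ≤ 2 * d * x ^ (-(3 / 2) : ℝ) * (4 * (s ^ (1 / 4 : ℝ) * s)) :=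
            mul_le_mul_of_nonneg_left h5 (by positivity)
        _ = _ := by ring
    have e2 : |qq d s w| ≤ 8 * s ^ (1 / 4 : ℝ) * (‖w‖ ^ (-(3 / 2) : ℝ) + ‖w - s‖ ^ (-(3 / 2) : ℝ)) := by
      rcases le_total ‖w‖ ‖w - s‖ with hab | hab
      · have h1 := key ‖w‖ ‖w - s‖ ha hab hb3
        have h2 : ‖w - s‖ ^ (-d) ≤ ‖w‖ ^ (-d) :=
          Real.rpow_le_rpow_of_nonpos ha hab (by linarith)
        rw [qq, abs_of_nonpos (div_nonpos_of_nonpos_of_nonneg (by linarith) (by positivity)),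
          ← neg_div, neg_sub]
        refine h1.trans (mul_le_mul_of_nonneg_left ?_ (by positivity))
        linarith
      · have h1 := key ‖w - s‖ ‖w‖ hb hab (by linarith)
        have h2 : ‖w‖ ^ (-d) ≤ ‖w - s‖ ^ (-d) :=
          Real.rpow_le_rpow_of_nonpos hb hab (by linarith)
        rw [qq, abs_of_nonneg (div_nonneg (by linarith) (by positivity))]
        refine h1.trans (mul_le_mul_of_nonneg_left ?_ (by positivity))
        linarith
    have e3 := abs_sub (qq d s w) (hk w)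
    nlinarith [mul_pos hs4 hA, mul_pos hs4 hBp, mul_pos hd hA, mul_pos hd hBp]

end Pool.Agent.Helper17.G3
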