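import Pool.Agent.Helper17.G3.Kern

/-!
# G3: the plane integral of the positive part, normalised form
-/

set_option autoImplicit false
set_option linter.unusedVariables false

namespace Pool.Agent.Helper17.G3

open MeasureTheory Set Metric
open scoped Real

/-- layer cake for the kernel: `∫ (h - 1/2)_+ ≤ π / 2` -/
theorem lint_pos :
    ∫⁻ w : ℂ, ENNReal.ofReal (max (hk w - 1 / 2) 0) ≤ ENNReal.ofReal (π / 2) := by
  have hm : Measurable fun w : ℂ => max (hk w - 1 / 2) 0 :=
    (measurable_hk.sub_const _).max measurable_const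
  rw [lintegral_eq_lintegral_meas_lt volume (Filter.Eventually.of_forall fun w =>
    (le_max_right _ _ : (0 : ℝ) ≤ max (hk w - 1 / 2) 0)) hm.aemeasurable]
  calc ∫⁻ t in Ioi (0 : ℝ), volume {a : ℂ | t < max (hk a - 1 / 2) 0}
      ≤ ∫⁻ t in Ioi (0 : ℝ), ENNReal.ofReal (π / 4 * (t + 1 / 2) ^ (-2 : ℝ)) := by
        refine setLIntegral_mono' measurableSet_Ioi fun t ht => ?_
        have ht0 : 0 < t := ht
        have hsub : {a : ℂ | t < max (hk a - 1 / 2) 0} ⊆ {w : ℂ | t + 1 / 2 < hk w} := by
          intro a ha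
          simp only [mem_ofPred_eq] at ha ⊢
          rcases lt_max_iff.mp ha with h | h
          · linarith
          · linarith
        refine (measure_mono hsub).trans ?_
        rw [volume_hk (by linarith)]
        refine ENNReal.ofReal_le_ofReal (le_of_eq ?_)
        rw [Real.rpow_neg (by linarith), Real.rpow_two]
        field_simp
        ring
    _ = ENNReal.ofReal (∫ t in Ioi (0 : ℝ), π / 4 * (t + 1 / 2) ^ (-2 : ℝ)) := by
        rw [ofReal_integral_eq_lintegral_ofReal]
        · refine Integrable.const_mul ?_ _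
          exact integrableOn_add_rpow_Ioi_of_lt (by norm_num) (by norm_num)
        · filter_upwards [ae_restrict_mem measurableSet_Ioi] with t ht
          have ht0 : 0 < t := ht
          positivity
    _ = ENNReal.ofReal (π / 2) := by
        congr 1
        rw [integral_const_mul]
        have h4 : ∫ t in Ioi (0 : ℝ), (t + 1 / 2) ^ (-2 : ℝ) =
            ∫ t in Ioi (1 / 2 : ℝ), t ^ (-2 : ℝ) := by
          rw [← integral_indicator measurableSet_Ioi, ← integral_indicator measurableSet_Ioi,
            ← integral_add_right_eq_self ((Ioi (1 / 2 : ℝ)).indicator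
              fun t : ℝ => t ^ (-2 : ℝ)) (1 / 2)]
          refine integral_congr_ae (Filter.Eventually.of_forall fun t => ?_)
          by_cases ht : 0 < t
          · have ht' : 1 / 2 < t + 1 / 2 := by linarith
            simp only [indicator, mem_Ioi, ht, ht', if_true]
          · have ht' : ¬ 1 / 2 < t + 1 / 2 := by linarith
            simp only [indicator, mem_Ioi, ht, ht', if_false]
        rw [h4, integral_Ioi_rpow_of_lt (by norm_num) (by norm_num)]
        norm_num
        ring

/-- the ball in which everything happens -/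
def Bt : Set ℂ := closedBall 0 10

theorem meas_Bt : MeasurableSet Bt := isClosed_closedBall.measurableSet

theorem vol_Bt : volume Bt ≠ ⊤ := (isCompact_closedBall (0 : ℂ) 10).measure_ne_top

theorem int_hk_Bt : IntegrableOn hk Bt := by
  have h1 := Helper39.G2.integrableOn_weight (d := 1) one_pos (by norm_num) 0 vol_Bt
  refine Integrable.mono' h1 measurable_hk.aestronglyMeasurable
    (Filter.Eventually.of_forall fun w => ?_)
  rw [Real.norm_eq_abs, sub_zero]
  exact abs_hk_le w

theorem Dk_sub : Dk ⊆ Bt := by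
  intro w hw
  rw [Dk, mem_ball, dist_eq_norm] at hw
  rw [Bt, mem_closedBall, dist_zero_right]
  have h1 : w = (w - 1) + 1 := by ring
  have h2 := norm_add_le (w - 1) 1
  rw [← h1, norm_one] at h2
  linarith

theorem meas_Dk : MeasurableSet Dk := isOpen_ball.measurableSet

/-- the positive part of the perturbed kernel -/
theorem pos_part {g : ℂ → ℝ} (hg : Measurable g) (hg1 : ∀ w, |g w| ≤ 1) {ν : ℝ}
    (hν : |ν| ≤ 1 / 8) :
    ∫ w in Bt, max (hk w + ν * g w - 1 / 2) 0 ≤
      π / 2 + ν * (∫ w in Dk, g w) + 10 * π * ν ^ 2 := by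
  have hgi : IntegrableOn g Bt := by
    refine Integrable.mono' (g := fun _ => (1 : ℝ)) (integrableOn_const vol_Bt) hg.aestronglyMeasurable
      (Filter.Eventually.of_forall fun w => ?_)
    rw [Real.norm_eq_abs]
    exact hg1 w
  have hpt : ∀ w : ℂ, max (hk w + ν * g w - 1 / 2) 0 ≤
      max (hk w - 1 / 2) 0 + Dk.indicator (fun w => ν * g w) w +
        {w : ℂ | |hk w - 1 / 2| < |ν|}.indicator (fun _ => |ν|) w := by
    intro w
    have h1 : |ν * g w| ≤ |ν| := by
      rw [abs_mul]
      exact mul_le_of_le_one_right (abs_nonneg _) (hg1 w)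
    have h1' := abs_le.mp h1
    by_cases hD : w ∈ Dk
    · rw [indicator_of_mem hD]
      have h2 := mem_Dk.mp hD
      by_cases hb : |hk w - 1 / 2| < |ν|
      · rw [indicator_of_mem (show w ∈ {w : ℂ | |hk w - 1 / 2| < |ν|} from hb)]
        have h3 := le_max_left (hk w - 1 / 2) 0
        refine max_le (by linarith [abs_nonneg ν]) ?_
        linarith
      · rw [indicator_of_notMem (show w ∉ {w : ℂ | |hk w - 1 / 2| < |ν|} from hb)]
        have h3 := le_max_left (hk w - 1 / 2) 0
        rw [not_lt, abs_of_pos (show 0 < hk w - 1 / 2 by linarith)] at hb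
        refine max_le (by linarith) ?_
        linarith
    · rw [indicator_of_notMem hD]
      have h2 : hk w ≤ 1 / 2 := not_lt.mp fun h => hD (mem_Dk.mpr h)
      have h3 := le_max_right (hk w - 1 / 2) 0
      by_cases hb : |hk w - 1 / 2| < |ν|
      · rw [indicator_of_mem (show w ∈ {w : ℂ | |hk w - 1 / 2| < |ν|} from hb)]
        refine max_le (by linarith) ?_
        linarith [abs_nonneg ν]
      · rw [indicator_of_notMem (show w ∉ {w : ℂ | |hk w - 1 / 2| < |ν|} from hb)]
        rw [not_lt, abs_of_nonpos (show hk w - 1 / 2 ≤ 0 by linarith)] at hb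
        refine max_le (by linarith) ?_
        linarith
  have hmb : MeasurableSet {w : ℂ | |hk w - 1 / 2| < |ν|} :=
    measurableSet_lt ((measurable_hk.sub_const _).abs) measurable_const
  have i1 : IntegrableOn (fun w => max (hk w - 1 / 2) 0) Bt :=
    (int_hk_Bt.sub (integrableOn_const vol_Bt)).pos_part
  have i2 : IntegrableOn (Dk.indicator fun w => ν * g w) Bt :=
    (hgi.const_mul ν).indicator meas_Dk
  have i3 : IntegrableOn ({w : ℂ | |hk w - 1 / 2| < |ν|}.indicator fun _ => |ν|) Bt :=
    (integrableOn_const (C := |ν|) vol_Bt).indicator hmb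
  have i0 : IntegrableOn (fun w => max (hk w + ν * g w - 1 / 2) 0) Bt :=
    ((int_hk_Bt.add (hgi.const_mul ν)).sub (integrableOn_const vol_Bt)).pos_part
  have i12 : Integrable (fun w => max (hk w - 1 / 2) 0 + Dk.indicator (fun w => ν * g w) w)
      (volume.restrict Bt) := i1.add i2
  have e1 : ∫ w in Bt, max (hk w - 1 / 2) 0 ≤ π / 2 := by
    rw [integral_eq_lintegral_of_nonneg_ae (Filter.Eventually.of_forall fun w =>
      (le_max_right _ _ : (0 : ℝ) ≤ max (hk w - 1 / 2) 0)) i1.1]
    refine ENNReal.toReal_le_of_le_ofReal (by positivity) (le_trans ?_ lint_pos)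
    exact lintegral_mono' Measure.restrict_le_self le_rfl
  have e2 : ∫ w in Bt, Dk.indicator (fun w => ν * g w) w = ν * ∫ w in Dk, g w := by
    rw [setIntegral_indicator meas_Dk, inter_eq_right.mpr Dk_sub, integral_const_mul]
  have e3 : ∫ w in Bt, {w : ℂ | |hk w - 1 / 2| < |ν|}.indicator (fun _ => |ν|) w ≤
      10 * π * ν ^ 2 := by
    rw [setIntegral_indicator hmb, setIntegral_const, smul_eq_mul, measureReal_def]
    rcases eq_or_ne ν 0 with h | h
    · subst h
      simp
    · have h2 : 0 < |ν| := abs_pos.mpr h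
      have h3 : (volume (Bt ∩ {w : ℂ | |hk w - 1 / 2| < |ν|})).toReal ≤ 10 * π * |ν| := by
        refine ENNReal.toReal_le_of_le_ofReal (by positivity) ?_
        exact (measure_mono inter_subset_right).trans (volume_band h2 hν)
      calc (volume (Bt ∩ {w : ℂ | |hk w - 1 / 2| < |ν|})).toReal * |ν|
          ≤ 10 * π * |ν| * |ν| := mul_le_mul_of_nonneg_right h3 h2.le
        _ = 10 * π * ν ^ 2 := by
          rw [mul_assoc, abs_mul_abs_self]
          ring
  calc ∫ w in Bt, max (hk w + ν * g w - 1 / 2) 0
      ≤ ∫ w in Bt, (max (hk w - 1 / 2) 0 + Dk.indicator (fun w => ν * g w) w +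
        {w : ℂ | |hk w - 1 / 2| < |ν|}.indicator (fun _ => |ν|) w) :=
        integral_mono i0 (i12.add i3) hpt
    _ = (∫ w in Bt, max (hk w - 1 / 2) 0) + (∫ w in Bt, Dk.indicator (fun w => ν * g w) w) +
        ∫ w in Bt, {w : ℂ | |hk w - 1 / 2| < |ν|}.indicator (fun _ => |ν|) w := by
        rw [integral_add i12 i3, integral_add i1 i2]
    _ ≤ _ := by
        rw [e2]
        linarith

end Pool.Agent.Helper17.G3
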